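import Pool.Agent.Lib.MP_9177b7_ag.CM.Main

/-! Automorphisms of the complex numbers, odd degrees, and descent of points of odd degree. -/

open Polynomial IntermediateField
open Pool.Agent.Lib.MP_9177b7_ag.CM

noncomputable section

namespace Pool.Agent.Lib.MP_d6ddbd_nt

theorem countable_poly (K : Type) [Field K] [Countable K] : Countable K[X] :=
  Cardinal.mk_le_aleph0_iff.1 (Polynomial.cardinalMk_le_max.trans (by simp))

theorem orb {K : Type} [Field K] [Algebra K ℂ] [Countable K] {x y : ℂ} (hx : IsIntegral K x)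
    (hy : aeval y (minpoly K x) = 0) :
    ∃ σ : ℂ ≃+* ℂ, (∀ k : K, σ (algebraMap K ℂ k) = algebraMap K ℂ k) ∧ σ x = y := by
  have : Fact (Irreducible (minpoly K x)) := ⟨minpoly.irreducible hx⟩
  have := countable_poly K
  have : Countable (AdjoinRoot (minpoly K x)) := AdjoinRoot.mk_surjective.countable
  have a1 : eval₂ (algebraMap K ℂ) x (minpoly K x) = 0 := minpoly.aeval K x
  have a2 : eval₂ (algebraMap K ℂ) y (minpoly K x) = 0 := hy
  obtain ⟨σ, hσ⟩ := hyp.ext _ (AdjoinRoot.lift _ x a1) (AdjoinRoot.lift _ y a2)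
    (RingHom.injective _) (RingHom.injective _)
  refine ⟨σ, fun k => ?_, ?_⟩
  · have := hσ (AdjoinRoot.of _ k)
    rwa [AdjoinRoot.lift_of, AdjoinRoot.lift_of] at this
  · have := hσ (AdjoinRoot.root _)
    rwa [AdjoinRoot.lift_root, AdjoinRoot.lift_root] at this

theorem card_roots {K : Type} [Field K] [CharZero K] [Algebra K ℂ] {x : ℂ} (hx : IsIntegral K x) :
    ((minpoly K x).aroots ℂ).toFinset.card = (minpoly K x).natDegree := by
  have := card_rootSet_eq_natDegree (K := ℂ) (minpoly.irreducible hx).separable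
    (IsAlgClosed.splits _)
  simpa [rootSet_def] using this

theorem mem_of_fix {x y : ℂ} (hx : IsIntegral ℚ x) (h : ∀ σ : ℂ ≃+* ℂ, σ x = x → σ y = y) :
    y ∈ ℚ⟮x⟯ := by
  have := adjoin.finiteDimensional hx
  have : Countable ℚ⟮x⟯ := Finsupp.Countable.of_moduleFinite (R := ℚ)
  have h' : ∀ σ : ℂ ≃+* ℂ, (∀ k : ℚ⟮x⟯, σ (algebraMap _ ℂ k) = algebraMap _ ℂ k) → σ y = y :=
    fun σ hσ => h σ (hσ ⟨x, mem_adjoin_simple_self ℚ x⟩)
  by_cases hy : IsIntegral ℚ⟮x⟯ y
  · have h1 : ((minpoly ℚ⟮x⟯ y).aroots ℂ).toFinset ⊆ {y} := fun z hz => by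
      obtain ⟨σ, h2, rfl⟩ := orb hy (mem_aroots.1 (Multiset.mem_toFinset.1 hz)).2
      simp [h' σ h2]
    have h2 := Finset.card_le_card h1
    rw [card_roots hy, Finset.card_singleton] at h2
    obtain ⟨k, rfl⟩ := minpoly.natDegree_eq_one_iff.1 (le_antisymm h2 (minpoly.natDegree_pos hy))
    exact k.2
  · have t1 : Transcendental ℚ⟮x⟯ y := fun ha => hy ha.isIntegral
    have t2 : Transcendental ℚ⟮x⟯ (y + 1) := fun ha => t1 (by simpa using ha.sub isAlgebraic_one)
    have := countable_poly ℚ⟮x⟯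
    obtain ⟨σ, hσ⟩ := hyp.ext _ (aeval y : ℚ⟮x⟯[X] →ₐ[ℚ⟮x⟯] ℂ).toRingHom (aeval (y + 1)).toRingHom
      (transcendental_iff_injective.1 t1) (transcendental_iff_injective.1 t2)
    have h1 := hσ X
    have h2 := h' σ fun k => by simpa using hσ (C k)
    simp [h2] at h1

theorem odd_deg {x : ℂ} (hx : IsIntegral ℚ x) (h1 : starRingEnd ℂ x = x)
    (h2 : ∀ σ : ℂ ≃+* ℂ, starRingEnd ℂ (σ x) = σ x → σ x = x) : Odd (minpoly ℚ x).natDegree := by
  rw [← card_roots hx]
  set S := ((minpoly ℚ x).aroots ℂ).toFinset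
  have mem : ∀ z, z ∈ S ↔ aeval z (minpoly ℚ x) = 0 := fun z => by
    simp [S, minpoly.ne_zero hx]
  have hS : x ∈ S := (mem x).2 (minpoly.aeval ℚ x)
  have h0 : ∑ _z ∈ S.erase x, (1 : ZMod 2) = 0 := by
    refine Finset.sum_involution (fun z _ => starRingEnd ℂ z) (fun _ _ => rfl)
      (fun z hz _ e => ?_) (fun z hz => ?_) fun z _ => Complex.conj_conj z
    · obtain ⟨σ, -, rfl⟩ := orb hx ((mem z).1 (Finset.mem_of_mem_erase hz))
      exact Finset.ne_of_mem_erase hz (h2 σ e)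
    · refine Finset.mem_erase.2 ⟨fun e => Finset.ne_of_mem_erase hz ?_, (mem _).2 ?_⟩
      · rw [← Complex.conj_conj z, e, h1]
      · have := aeval_algHom_apply (starRingEnd ℂ).toRatAlgHom z (minpoly ℚ x)
        rw [(mem z).1 (Finset.mem_of_mem_erase hz), map_zero] at this
        exact this
  rw [Finset.sum_const, nsmul_eq_mul, mul_one, ZMod.natCast_eq_zero_iff_even] at h0
  rw [← Finset.card_erase_add_one hS]
  exact h0.add_one

theorem springer {x y : ℂ} {F : ℚ[X]} (hF : F.natDegree = 4) (hl : F.leadingCoeff < 0)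
    (hx : IsIntegral ℚ x) (ho : Odd (minpoly ℚ x).natDegree) (hy : y ∈ ℚ⟮x⟯)
    (h : y ^ 2 = aeval x F) : ∃ s t : ℚ, t ^ 2 = F.eval s := by
  by_cases h1 : (minpoly ℚ x).natDegree = 1
  · obtain ⟨s, rfl⟩ := minpoly.natDegree_eq_one_iff.1 h1
    rw [adjoin_simple_eq_bot_iff.2 (IntermediateField.algebraMap_mem _ s)] at hy
    obtain ⟨t, rfl⟩ := IntermediateField.mem_bot.1 hy
    rw [aeval_algebraMap_apply, ← map_pow] at h
    exact ⟨s, t, by simpa using (algebraMap ℚ ℂ).injective h⟩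
  obtain ⟨k, hk⟩ : ∃ k, (minpoly ℚ x).natDegree = 2 * k + 3 := by
    obtain ⟨j, hj⟩ := ho
    exact ⟨j - 1, by omega⟩
  have := adjoin.finiteDimensional hx
  have fr : ∀ j, Module.finrank ℚ (degreeLT ℚ j) = j := fun j => by
    rw [(degreeLTEquiv ℚ j).finrank_eq]; simp
  have fd : ∀ j, FiniteDimensional ℚ (degreeLT ℚ j) := fun j =>
    (degreeLTEquiv ℚ j).symm.finiteDimensional
  let ev := (aeval (AdjoinSimple.gen ℚ x) : ℚ[X] →ₐ[ℚ] ℚ⟮x⟯).toLinearMap
  let φ := LinearMap.coprod (ev ∘ₗ (degreeLT ℚ (k + 3)).subtype)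
    (-(LinearMap.mulLeft ℚ (⟨y, hy⟩ : ℚ⟮x⟯)) ∘ₗ ev ∘ₗ (degreeLT ℚ (k + 1)).subtype)
  obtain ⟨⟨⟨a, ha⟩, ⟨b, hb⟩⟩, e, hne⟩ := (Submodule.ne_bot_iff _).1
    (φ.ker_ne_bot_of_finrank_lt (by rw [adjoin.finrank hx, Module.finrank_prod, fr, fr]; omega))
  have e' : aeval x a = y * aeval x b := by
    have := congrArg (algebraMap ℚ⟮x⟯ ℂ) (LinearMap.mem_ker.1 e)
    have g : ∀ P : ℚ[X], ((aeval (AdjoinSimple.gen ℚ x) P : ℚ⟮x⟯) : ℂ) = aeval x P := fun P =>
      (aeval_algebraMap_apply ℂ (AdjoinSimple.gen ℚ x) P).symm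
    simpa [φ, ev, g, ← sub_eq_add_neg, sub_eq_zero] using this
  have da : a.natDegree ≤ k + 2 := by
    by_cases h0 : a = 0
    · simp [h0]
    · have := (natDegree_lt_iff_degree_lt h0).2 (mem_degreeLT.1 ha); omega
  have hb0 : b ≠ 0 := by
    rintro rfl
    have h0 : a ≠ 0 := by rintro rfl; exact hne rfl
    have := natDegree_le_of_dvd (minpoly.dvd ℚ x (p := a) (by simpa using e')) h0
    omega
  have db : b.natDegree < k + 1 := (natDegree_lt_iff_degree_lt hb0).2 (mem_degreeLT.1 hb)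
  have hF0 : F ≠ 0 := by rintro rfl; simp at hF
  have hB : -F * b ^ 2 ≠ 0 := mul_ne_zero (neg_ne_zero.2 hF0) (pow_ne_zero _ hb0)
  have dg := degree_add_eq_of_leadingCoeff_add_ne_zero (p := a ^ 2) (q := -F * b ^ 2) (by
    have := sq_pos_of_ne_zero (leadingCoeff_ne_zero.2 hb0)
    rw [leadingCoeff_mul, leadingCoeff_pow, leadingCoeff_pow, leadingCoeff_neg]
    nlinarith [sq_nonneg a.leadingCoeff])
  obtain ⟨l, hl'⟩ : minpoly ℚ x ∣ a ^ 2 + -F * b ^ 2 := minpoly.dvd ℚ x (by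
    simp only [map_add, map_mul, map_pow, map_neg, e', ← h]; ring)
  have hN : a ^ 2 + -F * b ^ 2 ≠ 0 := fun h0 => by
    rw [h0, degree_zero] at dg
    exact hB (degree_eq_bot.1 (le_bot_iff.1 (dg ▸ le_max_right _ _)))
  have dl : l.natDegree = 1 := by
    have d1 := congrArg natDegree hl'
    rw [natDegree_mul (minpoly.ne_zero hx) (by rintro rfl; exact hN (by simpa using hl')), hk] at d1
    rcases max_choice (a ^ 2).degree (-F * b ^ 2).degree with c | c <;>
      rw [natDegree_eq_of_degree_eq (dg.trans c)] at d1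
    · rw [natDegree_pow] at d1; omega
    · rw [natDegree_mul (neg_ne_zero.2 hF0) (pow_ne_zero _ hb0), natDegree_neg, natDegree_pow] at d1
      omega
  obtain ⟨c, hc, d, rfl⟩ := natDegree_eq_one.1 dl
  have r : c * (-d / c) + d = 0 := by field_simp; ring
  have v1 := congrArg (eval (-d / c)) hl'
  have v2 := congrArg (fun P => eval (-d / c) (derivative P)) hl'
  simp [r, derivative_pow] at v1 v2
  by_cases hs : b.eval (-d / c) = 0
  · have : a.eval (-d / c) = 0 := by simpa [hs] using v1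
    simp [hs, this, hc] at v2
    have := degree_eq_one_of_irreducible_of_root (minpoly.irreducible hx) v2
    exact absurd (natDegree_eq_of_degree_eq_some this) h1
  · exact ⟨-d / c, a.eval (-d / c) / b.eval (-d / c), by
      rw [div_pow, div_eq_iff (pow_ne_zero _ hs)]; linear_combination v1⟩

end Pool.Agent.Lib.MP_d6ddbd_nt
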