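import Pool.Agent.Lib.MP_d6ddbd_nt.Pt

/-! The point attached to the maximal order of discriminant `1 - 4 n`. -/

open Pointwise UpperHalfPlane
open Pool.Agent.Lib.MP_9177b7_ag.CM

noncomputable section

namespace Pool.Agent.Lib.MP_d6ddbd_nt

variable {ω : ℂ} {n : ℤ}

theorem om' (hω : ω ^ 2 = ω - n) : ω ^ 2 = (1 : ℤ) * ω - n := by simpa using hω

theorem mem_ord {z : ℂ} : z ∈ sp 1 ω ↔ ∃ a b : ℤ, a + b * ω = z := by
  simp only [mem_sp, mul_one]

theorem no_unit (hω : ω ^ 2 = ω - n) (him : ω.im ≠ 0) (hn : 2 ≤ n) {ζ : ℂ} {s : ℤ}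
    (hs : s = 0 ∨ s = -1) (hζ : ζ ^ 2 = s * ζ - 1) (h2 : (ζ ^ 4)⁻¹ * g2 (sp 1 ω) = g2 (sp 1 ω))
    (h3 : (ζ ^ 6)⁻¹ * g3 (sp 1 ω) = g3 (sp 1 ω)) : False := by
  have h0 : ζ ≠ 0 := by rintro rfl; simp at hζ
  have hO := isLat_ord him
  have e : sp 1 ω = ζ • sp 1 ω := hyp.conj_unique (σ := RingHom.id ℂ) ⟨hO, hO, rfl, rfl⟩
    ⟨hO, hyp.isLat_smul hO h0, by rw [hyp.g2_smul _ h0, h2]; rfl,
      by rw [hyp.g3_smul _ h0, h3]; rfl⟩
  obtain ⟨a, b, rfl⟩ := mem_ord.1 (show ζ ∈ sp 1 ω by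
    rw [e]; exact mem_smul_iff.2 ⟨1, left_mem_sp _ _, mul_one _⟩)
  obtain ⟨e1, e2⟩ := int_of_im him (a := a ^ 2 - s * a + 1 - n * b ^ 2)
    (b := b * (2 * a + b - s)) (by push_cast; linear_combination hζ - b ^ 2 * hω)
  rcases mul_eq_zero.1 e2 with rfl | e2
  · rcases hs with rfl | rfl <;> nlinarith [sq_nonneg a, sq_nonneg (2 * a + 1)]
  · have hb : b ≠ 0 := by
      rintro rfl
      rcases hs with rfl | rfl <;> nlinarith [sq_nonneg a, sq_nonneg (2 * a + 1)]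
    have : 1 ≤ b ^ 2 := by have := sq_pos_of_ne_zero hb; omega
    have e3 : (4 * n - 1) * b ^ 2 = 4 - s ^ 2 := by
      linear_combination (-4) * e1 + (2 * a - b - s) * e2
    rcases hs with rfl | rfl <;> nlinarith

theorem g2_ne (hω : ω ^ 2 = ω - n) (him : ω.im ≠ 0) (hn : 2 ≤ n) : g2 (sp 1 ω) ≠ 0 := fun h => by
  obtain ⟨ζ, hζ⟩ : ∃ ζ : ℂ, ζ ^ 2 = (-1 : ℤ) * ζ - 1 := by
    obtain ⟨r, hr⟩ := IsAlgClosed.exists_pow_nat_eq (-3 : ℂ) two_pos
    exact ⟨(r - 1) / 2, by push_cast; linear_combination hr / 4⟩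
  refine no_unit hω him hn (.inr rfl) hζ (by simp [h]) ?_
  rw [show ζ ^ 6 = 1 by push_cast at hζ; linear_combination (ζ ^ 3 + 1) * (ζ - 1) * hζ]
  simp

theorem g3_ne (hω : ω ^ 2 = ω - n) (him : ω.im ≠ 0) (hn : 2 ≤ n) : g3 (sp 1 ω) ≠ 0 := fun h =>
  no_unit hω him hn (ζ := Complex.I) (.inl rfl) (by simp) (by simp) (by simp [h])

theorem div_notMem (him : ω.im ≠ 0) {a b N : ℤ} (hN : N ≠ 0) (h : ¬ (N ∣ a ∧ N ∣ b)) :
    ((a : ℂ) + b * ω) * (1 / N) ∉ sp 1 ω := fun hm => by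
  obtain ⟨u, v, e⟩ := mem_ord.1 hm
  have hN' : (N : ℂ) ≠ 0 := by exact_mod_cast hN
  obtain ⟨e1, e2⟩ := int_of_im him (a := a - N * u) (b := b - N * v) (by
    push_cast
    field_simp at e
    linear_combination -e)
  exact h ⟨⟨u, by omega⟩, ⟨v, by omega⟩⟩

theorem cm_fix (hω : ω ^ 2 = ω - n) (him : ω.im ≠ 0) {k β m e : ℤ} (hk : 2 * k * β = 1 + 5 * m)
    (he : ((k : ℂ) * (2 * ω - 1)) ^ 2 = 2 + 5 * e) (σ : ℂ ≃+* ℂ)
    (hσ : σ (jL (sp 1 ω)) = jL (sp 1 ω)) :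
    σ (tauL (sp 1 ω) (k * (2 * ω - 1)) (1 / 5)) = tauL (sp 1 ω) (k * (2 * ω - 1)) (1 / 5) ∧
      σ (gam (sp 1 ω) ω (1 / 2)) = gam (sp 1 ω) ω (1 / 2) := by
  have hO := isLat_ord him
  have hle := smul_ord_le (om' hω)
  obtain ⟨M, hM⟩ := hyp.exists_conj (σ : ℂ →+* ℂ) hO
  obtain ⟨c, hc, rfl⟩ := hyp.eq_smul_of_jL_eq hO hM.2.1 (by rw [← hM.jL]; exact hσ.symm)
  have pull : ∀ x, c * x ∈ c • sp 1 ω ↔ x ∈ sp 1 ω := fun x =>
    ⟨fun h => by
      obtain ⟨y, hy, e⟩ := mem_smul_iff.1 h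
      rwa [← mul_left_cancel₀ hc e], fun h => mem_smul_iff.2 ⟨x, h, rfl⟩⟩
  have hσω : σ ω = ω ∨ σ ω = 1 - ω := by simpa using map_omega (om' hω) (σ : ℂ →+* ℂ)
  have h1 : (1 : ℂ) ∈ sp 1 ω := left_mem_sp _ _
  constructor
  · have hε : ((k : ℂ) * (2 * ω - 1)) • sp 1 ω ≤ sp 1 ω := by
      convert lin_le hle (-k) (2 * k) using 2
      push_cast; ring
    have hz : 5 * (1 / 5 : ℂ) ∈ sp 1 ω := by simpa using h1
    have hz' : (1 / 5 : ℂ) ∉ sp 1 ω := by
      simpa using div_notMem him (a := 1) (b := 0) (N := 5) (by norm_num) (by decide)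
    obtain ⟨z', a1, a2, a3⟩ := lift (l := 5) (by norm_num) hM (by exact_mod_cast hz) hz'
    obtain ⟨w, rfl⟩ : ∃ w, z' = c * w := ⟨z' / c, by field_simp⟩
    rw [tau_conj hM hε he hz hz' (by exact_mod_cast a1) a3, tau_smul _ hc]
    have b2 : w ∉ sp 1 ω := fun h => a2 ((pull w).2 h)
    obtain ⟨a, b, hab⟩ := mem_ord.1 ((pull (5 * w)).1 (by convert a1 using 1; push_cast; ring))
    have hk' : (2 : ℂ) * k * β = 1 + 5 * m := by exact_mod_cast hk
    have b3 : w - (1 : ℤ) * ((((a + b * k * β : ℤ) : ℂ) + (b * β : ℤ) * (k * (2 * ω - 1))) *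
        (1 / 5)) ∈ sp 1 ω := mem_ord.2 ⟨0, -(b * m), by
      push_cast; linear_combination hab / 5 + b * ω / 5 * hk'⟩
    have b4 : tauL (sp 1 ω) (k * (2 * ω - 1)) w = tauL (sp 1 ω) (k * (2 * ω - 1)) (1 / 5) := by
      rw [tau_congr hO hε he (lin_five hε hz _ _) b2 1 b3]
      refine tau_mul hO hε he hz hz' _ _ fun h => b2 ?_
      simpa using (sp 1 ω).add_mem b3 (imul h 1)
    rcases hσω with h | h
    · simpa [h, map_ofNat] using b4
    · rw [← b4, ← tau_neg_eps hO]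
      congr 1
      simp only [map_mul, map_sub, map_intCast, map_ofNat, map_one, h]
      ring
  · have hy : 2 * (1 / 2 : ℂ) ∈ sp 1 ω := by simpa using h1
    have h3 : ω * (1 / 2) ∉ sp 1 ω := by
      simpa using div_notMem him (a := 0) (b := 1) (N := 2) (by norm_num) (by decide)
    have h4 : (1 - ω) * (1 / 2) ∉ sp 1 ω := by
      simpa [sub_eq_add_neg] using
        div_notMem him (a := 1) (b := -1) (N := 2) (by norm_num) (by decide)
    obtain ⟨z', a1, -, a3⟩ := lift (l := 2) (by norm_num) hM (by exact_mod_cast hy)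
      fun h => h3 (mul_mem_of_le hle h)
    obtain ⟨w, rfl⟩ : ∃ w, z' = c * w := ⟨z' / c, by field_simp⟩
    obtain ⟨b1, b2, b3⟩ := gam_conj hM hle hy h3 h4 a3
    rw [b1, gam_smul _ hc]
    rw [mul_left_comm, pull] at b2 b3
    obtain ⟨a, b, hab⟩ := mem_ord.1 ((pull (2 * w)).1 (by convert a1 using 1; push_cast; ring))
    obtain rfl : w = (a + b * ω) * (1 / 2) := by linear_combination -hab / 2
    rcases hσω with h | h
    · rw [h] at b2 b3 ⊢
      exact gam_indep hO hle hω hy a b b2 b3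
    · rw [h] at b2 b3 ⊢
      rw [gam_bar]
      exact gam_indep hO hle hω hy a b (by simpa using b3) b2

theorem unique_real (hω : ω ^ 2 = ω - n) (him : 0 < ω.im) (hp : Prime (4 * n - 1)) {x : ℂ}
    (hx : x ∈ Jset ω) (hr : starRingEnd ℂ x = x) : x = jL (sp 1 ω) := by
  obtain ⟨L, hL, hle, rfl⟩ := hx
  obtain ⟨τ, c, hc, hτ, rfl⟩ := hyp.exists_fd hL
  rw [hyp.jL_smul _ hc] at hr ⊢
  have hle' : ω • sp τ 1 ≤ sp τ 1 := by
    have := smul_le_smul c⁻¹ hle
    rwa [smul_smul, smul_smul, smul_smul, inv_mul_cancel₀ hc, one_smul,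
      show c⁻¹ * ω * c = ω by field_simp] at this
  obtain ⟨A, u, e1⟩ := mem_sp.1 (mul_mem_of_le hle' (right_mem_sp _ _))
  obtain ⟨b, C, e2⟩ := mem_sp.1 (mul_mem_of_le hle' (left_mem_sp _ _))
  rw [mul_one, mul_one] at e1
  have hre : ω.re = 1 / 2 := by
    have := congrArg Complex.re (conj_omega (om' hω) him.ne')
    simp at this
    linarith
  have hA : 0 < A := by
    have := congrArg Complex.im e1
    simp at this
    have h0 := τ.im_pos
    have : (0 : ℝ) < A := by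
      by_contra h
      nlinarith
    exact_mod_cast this
  have r1 : (A : ℝ) * τ.re + u = 1 / 2 := by
    have := congrArg Complex.re e1
    simp at this
    rw [this, hre]
  obtain ⟨f1, f2⟩ := int_of_im him.ne' (a := A * C - b * u + n) (b := b + u - 1) (by
    push_cast; linear_combination A * e2 - (b - ω) * e1 + hω)
  obtain rfl : b = 1 - u := by omega
  have r2 : (A : ℝ) * Complex.normSq τ = -C := by
    have h0 := τ.im_pos
    have a1 := congrArg Complex.re e2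
    have a2 := congrArg Complex.im e2
    rw [← e1] at a1 a2
    simp at a1 a2
    rw [Complex.normSq_apply]
    simp only [coe_re, coe_im]
    linear_combination a1 + 2 * τ.re * r1
  have hA' : (0 : ℝ) < A := by exact_mod_cast hA
  have c1 : A ≤ -C := by
    have : (A : ℝ) ≤ -C := by nlinarith [hτ.1]
    exact_mod_cast this
  have hB := abs_le.1 hτ.2
  have c2 : -A ≤ 1 - 2 * u ∧ 1 - 2 * u ≤ A := by
    have : -(A : ℝ) ≤ 1 - 2 * u ∧ 1 - 2 * u ≤ (A : ℝ) := by constructor <;> nlinarith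
    exact_mod_cast this
  have key : A = 1 := by
    by_cases ho : τ ∈ ModularGroup.fdo
    · let τ' : ℍ := ⟨-starRingEnd ℂ τ, by simpa using τ.im_pos⟩
      have e : sp τ' 1 = bar (sp τ 1) := by
        rw [bar_sp, map_one]
        apply le_antisymm <;> rw [sp_le]
        · exact ⟨mem_sp.2 ⟨-1, 0, by simp [τ']⟩, right_mem_sp _ _⟩
        · exact ⟨mem_sp.2 ⟨-1, 0, by simp [τ']⟩, right_mem_sp _ _⟩
      obtain ⟨γ, hγ⟩ := hyp.jH_eq_iff.1 (show jH τ = jH τ' by
        rw [← hyp.jL_sp, ← hyp.jL_sp, e, hyp.jL_bar (hyp.isLat_sp τ), hr])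
      have hτ' : γ • τ ∈ ModularGroup.fd := by
        rw [← hγ]
        exact ⟨by simpa [τ'] using hτ.1, by simpa [τ', ← coe_re] using hτ.2⟩
      have : τ' = τ := by
        rcases ModularGroup.eq_one_or_neg_one_of_mem_fdo_mem_fd ho hτ' with rfl | rfl <;>
          simpa using hγ
      have := congrArg UpperHalfPlane.re this
      simp [τ', ← coe_re] at this
      have h2 : ((2 * u : ℤ) : ℝ) = (1 : ℤ) := by
        have : (τ : ℂ).re = 0 := by linarith
        rw [coe_re] at this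
        rw [this] at r1
        push_cast; linarith
      have : 2 * u = 1 := by exact_mod_cast h2
      omega
    · have split : ∀ s t : ℤ, s * t = 4 * n - 1 → A ≤ s → A ≤ t → A = 1 := fun s t h hs ht => by
        rcases hp.irreducible.isUnit_or_isUnit h.symm with h | h <;>
          rcases Int.isUnit_iff.1 h with h | h <;> omega
      rcases (not_and_or.1 ho) with h | h
      · have : Complex.normSq τ = 1 := le_antisymm (not_lt.1 h) hτ.1
        rw [this, mul_one] at r2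
        obtain rfl : A = -C := by exact_mod_cast r2
        exact split (-2 * C - (1 - 2 * u)) (-2 * C + (1 - 2 * u)) (by linear_combination -4 * f1)
          (by omega) (by omega)
      · have h' : |τ.re| = 1 / 2 := le_antisymm hτ.2 (not_lt.1 h)
        have : (1 - 2 * u) ^ 2 = A ^ 2 := by
          have : (1 - 2 * (u : ℝ)) ^ 2 = A ^ 2 := by
            rw [show 1 - 2 * (u : ℝ) = 2 * A * τ.re by linarith, mul_pow, ← sq_abs τ.re, h']
            ring
          exact_mod_cast this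
        exact split A (-4 * C - A) (by linear_combination -4 * f1 + this) le_rfl (by omega)
  subst key
  congr 1
  apply le_antisymm <;> rw [sp_le]
  · exact ⟨mem_sp.2 ⟨-u, 1, by rw [← e1]; push_cast; ring⟩, left_mem_sp _ _⟩
  · exact ⟨right_mem_sp _ _, mem_sp.2 ⟨1, u, by rw [← e1, mul_one]⟩⟩

end Pool.Agent.Lib.MP_d6ddbd_nt
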