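import Mathlib

/-! The sextic of Kiepert and its splittings into two cubics. -/

open Polynomial

noncomputable section

namespace Pool.Agent.Lib.MP_d6ddbd_nt

/-- The sextic of Kiepert. -/
def Fk (a b T : ℂ) : ℂ :=
  T ^ 6 - 5 * a * T ^ 4 - 40 * b * T ^ 3 - 5 * a ^ 2 * T ^ 2 - 8 * a * b * T - 5 * b ^ 2

/-- The parameter attached to a splitting. -/
def Tau (a b S n k : ℂ) : ℂ :=
  (-150 * S * n ^ 2 + 153 * S ^ 2 * k + 3 * S ^ 5 - 3240 * b * n - 675 * a * k - 25 * a * S ^ 3) /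
    (4 * S ^ 2 * (S ^ 3 - 5 * a * S + 6 * k))

/-- The parameter attached to two triples of roots. -/
def T6 (a b x y z x' y' z' : ℂ) : ℂ :=
  Tau a b ((x + y + z - (x' + y' + z')) / 2)
    ((x * y + y * z + z * x - (x' * y' + y' * z' + z' * x')) / 2) ((x * y * z - x' * y' * z') / 2)

def qq (τ : ℂ) : ℂ := 27 * τ ^ 2 - 28 * τ + 8
def uu (τ : ℂ) : ℂ := (2 - τ) * (8 * τ ^ 2 - 7 * τ + 2)
def dd (τ : ℂ) : ℂ := 1 - τ - τ ^ 2
def rr (τ : ℂ) : ℂ := 8 * τ ^ 4 - 124 * τ ^ 3 + 207 * τ ^ 2 - 146 * τ + 28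

/-- The equation of the modular curve over the `j`-line. -/
def Pol (a b τ : ℂ) : ℂ := 125 * (a ^ 3 - 27 * b ^ 2) * uu τ ^ 3 - 1728 * a ^ 3 * dd τ ^ 5

theorem syz (τ : ℂ) : 125 * uu τ ^ 3 - 1728 * dd τ ^ 5 = qq τ * rr τ ^ 2 := by
  unfold uu dd qq rr; ring

theorem tau_neg (a b S n k : ℂ) : Tau a b (-S) (-n) (-k) = Tau a b S n k := by
  unfold Tau
  rw [← neg_div_neg_eq]
  congr 1 <;> ring

theorem T6_swap (a b x y z x' y' z' : ℂ) : T6 a b x' y' z' x y z = T6 a b x y z x' y' z' := by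
  unfold T6
  rw [← tau_neg]
  congr 1 <;> ring

theorem T6_rot (a b x y z x' y' z' : ℂ) : T6 a b y z x z' x' y' = T6 a b x y z x' y' z' := by
  unfold T6
  congr 1 <;> ring

theorem T6_flip (a b x y z x' y' z' : ℂ) : T6 a b x z y x' z' y' = T6 a b x y z x' y' z' := by
  unfold T6
  congr 1 <;> ring

theorem T6_map (σ : ℂ →+* ℂ) (a b x y z x' y' z' : ℂ) :
    σ (T6 a b x y z x' y' z') = T6 (σ a) (σ b) (σ x) (σ y) (σ z) (σ x') (σ y') (σ z') := by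
  simp only [T6, Tau, map_div₀, map_mul, map_add, map_sub, map_pow, map_neg, map_ofNat]

theorem T6_scale {c : ℂ} (hc : c ≠ 0) (a b x y z x' y' z' : ℂ) :
    T6 (c ^ 2 * a) (c ^ 3 * b) (c * x) (c * y) (c * z) (c * x') (c * y') (c * z') =
      T6 a b x y z x' y' z' := by
  unfold T6 Tau
  rw [← mul_div_mul_left _ _ (pow_ne_zero 5 hc)]
  symm
  rw [← mul_div_mul_left _ _ (pow_ne_zero 5 hc), ← mul_div_mul_left _ _ (pow_ne_zero 5 hc)]
  congr 1 <;> ring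

theorem ne_of_pol {a b τ : ℂ} (ha : a ≠ 0) (hb : b ≠ 0) (hd : a ^ 3 - 27 * b ^ 2 ≠ 0)
    (h : Pol a b τ = 0) : uu τ ≠ 0 ∧ dd τ ≠ 0 ∧ qq τ ≠ 0 ∧ rr τ ≠ 0 ∧
      a ^ 3 * (qq τ * rr τ ^ 2) = 3375 * uu τ ^ 3 * b ^ 2 := by
  have hc : ¬ (uu τ = 0 ∧ dd τ = 0) := by
    rintro ⟨h1, h2⟩
    unfold uu at h1
    unfold dd at h2
    have : (25 : ℂ) = 0 := by
      linear_combination (18 + 11 * τ) * h1 - (47 - 197 * τ + 88 * τ ^ 2) * h2
    norm_num at this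
  unfold Pol at h
  have hu : uu τ ≠ 0 := fun h1 => hc ⟨h1, by
    rw [h1] at h
    have : a ^ 3 * dd τ ^ 5 = 0 := by linear_combination (-1 / 1728) * h
    exact pow_eq_zero_iff (by norm_num) |>.1 ((mul_eq_zero.1 this).resolve_left (pow_ne_zero _ ha))⟩
  have hd' : dd τ ≠ 0 := fun h1 => hu (by
    rw [h1] at h
    have : (a ^ 3 - 27 * b ^ 2) * uu τ ^ 3 = 0 := by linear_combination (1 / 125) * h
    exact pow_eq_zero_iff (by norm_num) |>.1 ((mul_eq_zero.1 this).resolve_left hd))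
  have e : a ^ 3 * (qq τ * rr τ ^ 2) = 3375 * uu τ ^ 3 * b ^ 2 := by
    rw [← syz]; linear_combination h
  have hne : qq τ * rr τ ^ 2 ≠ 0 := fun h0 => by
    rw [h0, mul_zero] at e
    exact (mul_ne_zero (mul_ne_zero (by norm_num) (pow_ne_zero _ hu)) (pow_ne_zero _ hb)) e.symm
  exact ⟨hu, hd', left_ne_zero_of_mul hne,
    fun h0 => hne (by rw [h0]; ring), e⟩

theorem fac {a b τ : ℂ} (ha : a ≠ 0) (hb : b ≠ 0) (hd : a ^ 3 - 27 * b ^ 2 ≠ 0)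
    (h : Pol a b τ = 0) : ∃ S n k m r : ℂ, (∀ T, Fk a b T =
      (T ^ 3 - S * T ^ 2 + (m + n) * T - (r + k)) * (T ^ 3 - (-S) * T ^ 2 + (m - n) * T - (r - k)))
      ∧ Tau a b S n k = τ := by
  obtain ⟨hu, hde, hq, hr, e⟩ := ne_of_pol ha hb hd h
  obtain ⟨ρ, hρ⟩ := IsAlgClosed.exists_pow_nat_eq (5 : ℂ) two_pos
  have hρ0 : ρ ≠ 0 := by rintro rfl; norm_num at hρ
  obtain ⟨μ, hμ⟩ : ∃ μ : ℂ, μ = 15 * uu τ * b / (qq τ * rr τ * a) := ⟨_, rfl⟩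
  have hμ0 : μ ≠ 0 := by rw [hμ]; exact div_ne_zero (by simp [hu, hb]) (by simp [hq, hr, ha])
  have e1 : a = 15 * qq τ * uu τ * μ ^ 2 := by
    rw [hμ]; field_simp; linear_combination e
  have e2 : b = qq τ ^ 2 * rr τ * μ ^ 3 := by
    rw [hμ]; field_simp; linear_combination e
  obtain ⟨S, hS⟩ : ∃ S : ℂ, S = 3 * qq τ * μ := ⟨_, rfl⟩
  obtain ⟨n, hn⟩ : ∃ n : ℂ, n = -6 * qq τ * (1 - 3 * τ) * (8 * τ ^ 2 - 12 * τ + 7) * μ ^ 2 :=
    ⟨_, rfl⟩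
  obtain ⟨k, hk⟩ : ∃ k : ℂ,
    k = 3 * qq τ ^ 2 * (8 * τ ^ 2 - 12 * τ + 7) * (3 * τ ^ 2 - 2 * τ + 2) * μ ^ 3 := ⟨_, rfl⟩
  obtain ⟨m, hm⟩ : ∃ m : ℂ, m = (5 * S ^ 2 - 5 * a) / 2 := ⟨_, rfl⟩
  obtain ⟨r, hr'⟩ : ∃ r : ℂ, r = 5 * S * n + 20 * b := ⟨_, rfl⟩
  have i3 : m ^ 2 - 5 * n ^ 2 - 10 * S * k + 5 * a ^ 2 = 0 := by
    rw [hm, hS, hn, hk, e1]; unfold qq uu; ring
  have i4 : m * r - 5 * n * k - 4 * a * b = 0 := by
    rw [hm, hr', hS, hn, hk, e1, e2]; unfold qq uu rr; ring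
  have i5 : r ^ 2 - 5 * k ^ 2 + 5 * b ^ 2 = 0 := by
    rw [hr', hS, hn, hk, e2]; unfold qq rr; ring
  refine ⟨ρ * S, ρ * n, ρ * k, m, r, fun T => ?_, ?_⟩
  · unfold Fk
    linear_combination (S * T ^ 2 - n * T + k) ^ 2 * hρ - 2 * T ^ 4 * hm + 2 * T ^ 3 * hr' -
      T ^ 2 * i3 + 2 * T * i4 - i5
  · have j1 : 25 * (-6 * 5) * S * n ^ 2 + 153 * 5 * S ^ 2 * k + 3 * 25 * S ^ 5 - 3240 * b * n -
        675 * a * k - 25 * 5 * a * S ^ 3 = τ * (77760 * qq τ ^ 4 * dd τ ^ 2 * μ ^ 5) := by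
      rw [hS, hn, hk, e1, e2]; unfold qq uu rr dd; ring
    have j2 : 20 * S ^ 2 * (5 * S ^ 3 - 5 * a * S + 6 * k) = 77760 * qq τ ^ 4 * dd τ ^ 2 * μ ^ 5 := by
      rw [hS, hk, e1]; unfold qq uu dd; ring
    have hne : ρ * (77760 * qq τ ^ 4 * dd τ ^ 2 * μ ^ 5) ≠ 0 := by simp [hρ0, hq, hde, hμ0]
    unfold Tau
    rw [show 4 * (ρ * S) ^ 2 * ((ρ * S) ^ 3 - 5 * a * (ρ * S) + 6 * (ρ * k)) =
      ρ * (77760 * qq τ ^ 4 * dd τ ^ 2 * μ ^ 5) by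
        rw [← j2]
        linear_combination ρ * (4 * S ^ 5 * (ρ ^ 2 + 5) - 20 * a * S ^ 3 + 24 * S ^ 2 * k) * hρ,
      div_eq_iff hne]
    linear_combination ρ * j1 + ρ * (-150 * S * n ^ 2 + 153 * S ^ 2 * k +
      3 * S ^ 5 * (ρ ^ 2 + 5) - 25 * a * S ^ 3) * hρ

theorem vieta {x y z α β γ : ℂ} (hxy : x ≠ y) (hxz : x ≠ z) (hyz : y ≠ z)
    (hx : x ^ 3 - α * x ^ 2 + β * x - γ = 0) (hy : y ^ 3 - α * y ^ 2 + β * y - γ = 0)
    (hz : z ^ 3 - α * z ^ 2 + β * z - γ = 0) :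
    α = x + y + z ∧ β = x * y + y * z + z * x ∧ γ = x * y * z := by
  have h1 : x ^ 2 + x * y + y ^ 2 - α * (x + y) + β = 0 :=
    mul_left_cancel₀ (sub_ne_zero.2 hxy) (by linear_combination hx - hy)
  have h2 : x ^ 2 + x * z + z ^ 2 - α * (x + z) + β = 0 :=
    mul_left_cancel₀ (sub_ne_zero.2 hxz) (by linear_combination hx - hz)
  have h3 : α = x + y + z :=
    mul_left_cancel₀ (sub_ne_zero.2 hyz) (by linear_combination h2 - h1)
  subst h3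
  have h4 : β = x * y + y * z + z * x := by linear_combination h1
  subst h4
  exact ⟨rfl, rfl, by linear_combination -hx⟩

theorem card_le_three {s : Fin 6 → ℂ} (hs : Function.Injective s) (α β γ : ℂ) :
    (Finset.univ.filter fun i => s i ^ 3 - α * s i ^ 2 + β * s i - γ = 0).card ≤ 3 := by
  set p : ℂ[X] := X ^ 3 - C α * X ^ 2 + C β * X - C γ with hp
  have hd : p.natDegree = 3 := by rw [hp]; compute_degree!
  have h0 : p ≠ 0 := by rintro h; rw [h] at hd; simp at hd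
  calc _ ≤ p.roots.toFinset.card := Finset.card_le_card_of_injOn s (fun i hi => by
          simp only [Finset.coe_filter, Finset.mem_univ, true_and, Set.mem_ofPred_eq] at hi
          rw [Finset.mem_coe, Multiset.mem_toFinset, mem_roots h0, IsRoot.def, hp]
          simpa using hi) hs.injOn
    _ ≤ _ := (Multiset.toFinset_card_le _).trans (hd ▸ p.card_roots')

/-- The parameter attached to a set of indices. -/
def TA (a b : ℂ) (s : Fin 6 → ℂ) (A : Finset (Fin 6)) : ℂ :=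
  Tau a b ((∑ i ∈ A, s i - ∑ i ∈ Aᶜ, s i) / 2)
    ((((∑ i ∈ A, s i) ^ 2 - ∑ i ∈ A, s i ^ 2) / 2 -
      ((∑ i ∈ Aᶜ, s i) ^ 2 - ∑ i ∈ Aᶜ, s i ^ 2) / 2) / 2) ((∏ i ∈ A, s i - ∏ i ∈ Aᶜ, s i) / 2)

theorem TA_compl (a b : ℂ) (s : Fin 6 → ℂ) (A : Finset (Fin 6)) : TA a b s Aᶜ = TA a b s A := by
  unfold TA
  rw [← tau_neg, compl_compl]
  congr 1 <;> ring

theorem vieta' {s : Fin 6 → ℂ} (hs : Function.Injective s) {α β γ : ℂ} {A : Finset (Fin 6)}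
    (hA : A.card = 3) (h : ∀ i ∈ A, s i ^ 3 - α * s i ^ 2 + β * s i - γ = 0) :
    ∑ i ∈ A, s i = α ∧ ((∑ i ∈ A, s i) ^ 2 - ∑ i ∈ A, s i ^ 2) / 2 = β ∧ ∏ i ∈ A, s i = γ := by
  obtain ⟨x, y, z, hxy, hxz, hyz, rfl⟩ := Finset.card_eq_three.1 hA
  obtain ⟨h1, h2, h3⟩ := vieta (hs.ne hxy) (hs.ne hxz) (hs.ne hyz) (h x (by simp)) (h y (by simp))
    (h z (by simp))
  have n1 : x ∉ ({y, z} : Finset (Fin 6)) := by simp [hxy, hxz]
  simp only [Finset.sum_insert n1, Finset.prod_insert n1, Finset.sum_pair hyz,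
    Finset.prod_pair hyz, h1, h2, h3]
  refine ⟨by ring, by ring, by ring⟩

theorem root_eq {a b τ : ℂ} (ha : a ≠ 0) (hb : b ≠ 0) (hd : a ^ 3 - 27 * b ^ 2 ≠ 0)
    {s : Fin 6 → ℂ} (hs : Function.Injective s) (hF : ∀ i, Fk a b (s i) = 0) (h : Pol a b τ = 0) :
    ∃ A : Finset (Fin 6), (0 ∈ A ∧ A.card = 3) ∧ TA a b s A = τ := by
  obtain ⟨S, n, k, m, r, hf, ht⟩ := fac ha hb hd h
  set A := Finset.univ.filter fun i => s i ^ 3 - S * s i ^ 2 + (m + n) * s i - (r + k) = 0 with hA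
  have c1 : A.card ≤ 3 := card_le_three hs _ _ _
  have h2 : ∀ i ∈ Aᶜ, s i ^ 3 - (-S) * s i ^ 2 + (m - n) * s i - (r - k) = 0 := fun i hi => by
    have := hF i
    rw [hf] at this
    refine (mul_eq_zero.1 this).resolve_left fun h0 => ?_
    simp [hA, h0] at hi
  have c2 : Aᶜ.card ≤ 3 := le_trans (Finset.card_le_card fun i hi => by
    simpa using h2 i hi) (card_le_three hs (-S) (m - n) (r - k))
  have c3 := Finset.card_add_card_compl A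
  simp only [Fintype.card_fin] at c3
  obtain ⟨a1, a2, a3⟩ := vieta' hs (A := A) (by omega) (fun i hi => (Finset.mem_filter.1 hi).2)
  obtain ⟨b1, b2, b3⟩ := vieta' hs (A := Aᶜ) (by omega) h2
  have e : TA a b s A = τ := by
    unfold TA
    rw [a2, b2, a1, b1, a3, b3, ← ht]
    congr 1 <;> ring
  by_cases h0 : 0 ∈ A
  · exact ⟨A, ⟨h0, by omega⟩, e⟩
  · exact ⟨Aᶜ, ⟨by simpa using h0, by omega⟩, by rw [TA_compl, e]⟩

theorem ten_roots {a b : ℂ} (ha : a ≠ 0) (hb : b ≠ 0) (hd : a ^ 3 - 27 * b ^ 2 ≠ 0) :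
    ∃ Z : Finset ℂ, Z.card = 10 ∧ ∀ τ ∈ Z, Pol a b τ = 0 := by
  set U : ℂ[X] := (2 - X) * (8 * X ^ 2 - 7 * X + 2) with hU
  set D : ℂ[X] := 1 - X - X ^ 2 with hD
  set p : ℂ[X] := C (125 * (a ^ 3 - 27 * b ^ 2)) * U ^ 3 - C (1728 * a ^ 3) * D ^ 5 with hp
  have ha' : 1728 * a ^ 3 ≠ 0 := by simp [ha]
  have d1 : U.natDegree ≤ 3 := by rw [hU]; compute_degree
  have d2 : D.natDegree = 2 := by rw [hD]; compute_degree!
  have d3 : (C (1728 * a ^ 3) * D ^ 5).natDegree = 10 := by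
    rw [natDegree_C_mul ha', natDegree_pow, d2]
  have d4 : (C (125 * (a ^ 3 - 27 * b ^ 2)) * U ^ 3).natDegree ≤ 9 :=
    (natDegree_C_mul_le _ _).trans (natDegree_pow_le.trans (by omega))
  have hdeg : p.natDegree = 10 := by
    rw [hp, natDegree_sub_eq_right_of_natDegree_lt (by omega), d3]
  have h0 : p ≠ 0 := by rintro h; rw [h] at hdeg; simp at hdeg
  have ev : ∀ τ, p.eval τ = Pol a b τ := fun τ => by simp [hp, hU, hD, Pol, uu, dd]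
  have nd : p.roots.Nodup := by
    rw [Multiset.nodup_iff_count_le_one]
    intro τ
    rw [count_roots]
    by_contra hlt
    obtain ⟨r1, r2⟩ := (one_lt_rootMultiplicity_iff_isRoot h0).1 (not_le.1 hlt)
    rw [IsRoot.def, ev] at r1
    obtain ⟨hu, hde, -, hr, -⟩ := ne_of_pol ha hb hd r1
    have r3 : 125 * (a ^ 3 - 27 * b ^ 2) * (3 * uu τ ^ 2 * (-24 * τ ^ 2 + 46 * τ - 16)) -
        1728 * a ^ 3 * (5 * dd τ ^ 4 * (-1 - 2 * τ)) = 0 := by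
      rw [← r2.eq_zero]
      simp only [hp, hU, hD, derivative_sub, derivative_mul, derivative_C, derivative_pow, uu, dd,
        derivative_add, derivative_X, derivative_ofNat, derivative_one, eval_sub, eval_add,
        eval_mul, eval_pow, eval_C, eval_X, eval_ofNat, eval_one, eval_zero]
      push_cast
      ring
    have r4 : a ^ 3 * dd τ ^ 4 * rr τ = 0 := by
      unfold Pol at r1
      have w : 3 * (-24 * τ ^ 2 + 46 * τ - 16) * dd τ - 5 * uu τ * (-1 - 2 * τ) = -rr τ := by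
        unfold dd uu rr; ring
      linear_combination (1 / 1728) * (3 * (-24 * τ ^ 2 + 46 * τ - 16) * r1 - uu τ * r3) +
        a ^ 3 * dd τ ^ 4 * w
    simp [ha, hde, hr] at r4
  refine ⟨p.roots.toFinset, ?_, fun τ hτ => ?_⟩
  · rw [Multiset.toFinset_card_of_nodup nd, IsAlgClosed.card_roots_eq_natDegree, hdeg]
  · rw [← ev]
    exact (mem_roots h0).1 (Multiset.mem_toFinset.1 hτ)

theorem pol_T6 {a b : ℂ} (ha : a ≠ 0) (hb : b ≠ 0) (hd : a ^ 3 - 27 * b ^ 2 ≠ 0)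
    {s : Fin 6 → ℂ} (hs : Function.Injective s) (hF : ∀ i, Fk a b (s i) = 0) :
    Pol a b (T6 a b (s 0) (s 1) (s 2) (s 3) (s 4) (s 5)) = 0 := by
  obtain ⟨Z, hZ, hZ'⟩ := ten_roots ha hb hd
  set 𝒜 : Finset (Finset (Fin 6)) := Finset.univ.filter fun A => 0 ∈ A ∧ A.card = 3 with h𝒜
  have c : 𝒜.card = 10 := by rw [h𝒜]; decide
  have sub : Z ⊆ 𝒜.image (TA a b s) := fun τ hτ => by
    obtain ⟨A, hA, e⟩ := root_eq ha hb hd hs hF (hZ' τ hτ)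
    exact Finset.mem_image.2 ⟨A, Finset.mem_filter.2 ⟨Finset.mem_univ _, hA⟩, e⟩
  have eq : Z = 𝒜.image (TA a b s) :=
    Finset.eq_of_subset_of_card_le sub (by rw [hZ, ← c]; exact Finset.card_image_le)
  have m : TA a b s {0, 1, 2} ∈ Z := by
    rw [eq]
    exact Finset.mem_image_of_mem _ (by rw [h𝒜]; decide)
  have e : TA a b s {0, 1, 2} = T6 a b (s 0) (s 1) (s 2) (s 3) (s 4) (s 5) := by
    unfold TA T6
    rw [show ({0, 1, 2} : Finset (Fin 6))ᶜ = {3, 4, 5} by decide]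
    simp only [Finset.sum_insert (show (0 : Fin 6) ∉ ({1, 2} : Finset (Fin 6)) by decide),
      Finset.prod_insert (show (0 : Fin 6) ∉ ({1, 2} : Finset (Fin 6)) by decide),
      Finset.sum_insert (show (3 : Fin 6) ∉ ({4, 5} : Finset (Fin 6)) by decide),
      Finset.prod_insert (show (3 : Fin 6) ∉ ({4, 5} : Finset (Fin 6)) by decide),
      Finset.sum_pair (show (1 : Fin 6) ≠ 2 by decide),
      Finset.prod_pair (show (1 : Fin 6) ≠ 2 by decide),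
      Finset.sum_pair (show (4 : Fin 6) ≠ 5 by decide),
      Finset.prod_pair (show (4 : Fin 6) ≠ 5 by decide)]
    congr 1 <;> ring
  rw [← e]
  exact hZ' _ m

end Pool.Agent.Lib.MP_d6ddbd_nt
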