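import Mathlib

/-! Arithmetic of the curves `p y ^ 2 = (2 x ^ 2 + 2 x + 3) (1 + 4 x - x ^ 2)`. -/

namespace Pool.Agent.Lib.MP_d6ddbd_nt

section forms

variable {R : Type} [CommRing R]

def Q1 (a b : R) : R := 2 * a ^ 2 + 2 * a * b + 3 * b ^ 2
def Q2 (a b : R) : R := b ^ 2 + 4 * a * b - a ^ 2
def fA (a b : R) : R :=
  -5 * a ^ 9 - 24 * a ^ 8 * b - 36 * a ^ 7 * b ^ 2 + 172 * a ^ 6 * b ^ 3 + 192 * a ^ 5 * b ^ 4 +
    180 * a ^ 4 * b ^ 5 - 92 * a ^ 3 * b ^ 6 - 168 * a ^ 2 * b ^ 7 - 144 * a * b ^ 8 - 24 * b ^ 9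
def fB (a b : R) : R :=
  8 * a ^ 9 - 21 * a ^ 8 * b - 36 * a ^ 7 * b ^ 2 - 160 * a ^ 6 * b ^ 3 - 276 * a ^ 5 * b ^ 4 -
    396 * a ^ 4 * b ^ 5 - 408 * a ^ 3 * b ^ 6 - 108 * a ^ 2 * b ^ 7 - 8 * b ^ 9
def fS (a b : R) : R :=
  9 * a ^ 8 - 24 * a ^ 7 * b + 48 * a ^ 6 * b ^ 2 + 208 * a ^ 5 * b ^ 3 + 280 * a ^ 4 * b ^ 4 +
    72 * a ^ 3 * b ^ 5 + 188 * a ^ 2 * b ^ 6 + 104 * a * b ^ 7 + 24 * b ^ 8
def fT (a b : R) : R :=
  11 * a ^ 8 + 64 * a ^ 7 * b + 52 * a ^ 6 * b ^ 2 + 72 * a ^ 5 * b ^ 3 - 180 * a ^ 4 * b ^ 4 -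
    312 * a ^ 3 * b ^ 5 - 268 * a ^ 2 * b ^ 6 - 104 * a * b ^ 7 + 16 * b ^ 8

theorem Q1_step (a b : R) : Q1 (fA a b) (fB a b) = Q1 a b * fS a b ^ 2 := by
  unfold Q1 fA fB fS; ring

theorem Q2_step (a b : R) : Q2 (fA a b) (fB a b) = Q2 a b * fT a b ^ 2 := by
  unfold Q2 fA fB fT; ring

end forms

theorem three (a b : ℤ) : 3 ∣ fS a b ∧ (3 ∣ fB a b ∨ 3 ∣ Q2 a b → 3 ∣ a ∧ 3 ∣ b) := by
  have key : ∀ a b : ZMod 3, fS a b = 0 ∧ (fB a b = 0 ∨ Q2 a b = 0 → a = 0 ∧ b = 0) := by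
    unfold fS fB Q2; decide
  have := key a b
  have z := fun c : ℤ => (ZMod.intCast_zmod_eq_zero_iff_dvd c 3).symm
  simp only [Nat.cast_ofNat] at z
  simp only [z]
  unfold fS fB Q2 at this ⊢
  push_cast
  exact this

/-- The set of rational points. -/
def Pts (p : ℕ) : Set (ℚ × ℚ) :=
  {P | p * P.2 ^ 2 = (2 * P.1 ^ 2 + 2 * P.1 + 3) * (1 + 4 * P.1 - P.1 ^ 2)}

theorem of_mem {p : ℕ} {P : ℚ × ℚ} (h : P ∈ Pts p) : ∃ (a b : ℤ) (y : ℚ), IsCoprime a b ∧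
    p * y ^ 2 = (Q1 a b * Q2 a b : ℤ) := by
  refine ⟨P.1.num, P.1.den, P.2 * P.1.den ^ 2, Int.isCoprime_iff_gcd_eq_one.2 P.1.reduced, ?_⟩
  have h' : p * P.2 ^ 2 = (2 * P.1 ^ 2 + 2 * P.1 + 3) * (1 + 4 * P.1 - P.1 ^ 2) := h
  unfold Q1 Q2
  push_cast
  rw [← Rat.mul_den_eq_num]
  linear_combination (P.1.den : ℚ) ^ 4 * h'

theorem infinite_of_nonempty {p : ℕ} (h : (Pts p).Nonempty) : (Pts p).Infinite := by
  have step : ∀ (a b : ℤ) (y : ℚ) (k : ℕ), ¬ (3 ∣ a ∧ 3 ∣ b) → 3 ^ k ∣ Q1 a b * Q2 a b →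
      p * y ^ 2 = (Q1 a b * Q2 a b : ℤ) → ∃ (a b : ℤ) (y : ℚ), ¬ 3 ∣ b ∧
        3 ^ (k + 1) ∣ Q1 a b * Q2 a b ∧ p * y ^ 2 = (Q1 a b * Q2 a b : ℤ) := by
    intro a b y k h1 h2 h3
    refine ⟨fA a b, fB a b, y * (fS a b * fT a b : ℤ), fun h => h1 ((three a b).2 (.inl h)), ?_, ?_⟩
    · rw [Q1_step, Q2_step, pow_succ]
      exact (Dvd.dvd.mul_right (mul_dvd_mul h2 (three a b).1) (fS a b * fT a b ^ 2)).trans
        (dvd_of_eq (by ring))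
    · rw [Q1_step, Q2_step]
      push_cast at h3 ⊢
      linear_combination ((fS a b : ℤ) * (fT a b : ℤ) : ℚ) ^ 2 * h3
  have all : ∀ k : ℕ, ∃ (a b : ℤ) (y : ℚ), ¬ 3 ∣ b ∧ 3 ^ (k + 1) ∣ Q1 a b * Q2 a b ∧
      p * y ^ 2 = (Q1 a b * Q2 a b : ℤ) := by
    intro k
    induction k with
    | zero =>
      obtain ⟨P, hP⟩ := h
      obtain ⟨a, b, y, h1, h2⟩ := of_mem hP
      refine step a b y 0 (fun h => ?_) (by simp) h2
      have := Int.isUnit_iff.1 (h1.isUnit_of_dvd' h.1 h.2)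
      omega
    | succ k ih =>
      obtain ⟨a, b, y, h1, h2, h3⟩ := ih
      exact step a b y _ (fun h => h1 h.2) h2 h3
  refine Set.Infinite.of_image (fun P => (p * P.2 ^ 2 : ℚ).num.natAbs)
    (Set.infinite_of_forall_exists_gt fun k => ?_)
  obtain ⟨a, b, y, h1, h2, h3⟩ := all k
  have hb : b ≠ 0 := by rintro rfl; simp at h1
  have hb' : (b : ℚ) ≠ 0 := by exact_mod_cast hb
  refine ⟨_, ⟨(a / b, y / b ^ 2), ?_, rfl⟩, ?_⟩
  · unfold Q1 Q2 at h3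
    push_cast at h3
    simp only [Pts, Set.mem_ofPred_eq]
    field_simp
    linear_combination h3
  · simp only
    set r : ℚ := p * (y / b ^ 2) ^ 2 with hr
    have e : r.num * b ^ 4 = Q1 a b * Q2 a b * r.den := by
      have : (r.num : ℚ) * b ^ 4 = (Q1 a b * Q2 a b : ℤ) * r.den := by
        rw [← Rat.mul_den_eq_num, ← h3]
        nth_rewrite 1 [hr]
        field_simp
      exact_mod_cast this
    have n0 : r.num ≠ 0 := fun h0 => by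
      rw [h0, zero_mul] at e
      have q1 : 0 < Q1 a b := by
        unfold Q1
        nlinarith [sq_nonneg (2 * a + b), sq_pos_of_ne_zero hb]
      have q2 : Q2 a b ≠ 0 := fun h => h1 ((three a b).2 (.inr (by simp [h]))).2
      exact mul_ne_zero (mul_ne_zero q1.ne' q2) (by exact_mod_cast r.den_nz) e.symm
    have d : (3 : ℤ) ^ (k + 1) ∣ r.num :=
      (IsCoprime.pow (Int.prime_three.irreducible.coprime_iff_not_dvd.2 h1)).dvd_of_dvd_mul_right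
        (e ▸ h2.mul_right _ : _ ∣ r.num * b ^ 4)
    have := Nat.le_of_dvd (Int.natAbs_pos.2 n0) (Int.natAbs_dvd_natAbs.2 d)
    rw [Int.natAbs_pow] at this
    have h5 : k + 1 < 3 ^ (k + 1) := Nat.lt_pow_self (by norm_num)
    simp at this
    omega

theorem local_cond {p : ℕ} (hp : p.Prime) (h : (Pts p).Nonempty) : p % 20 = 3 ∨ p % 20 = 7 := by
  obtain ⟨P, hP⟩ := h
  obtain ⟨a, b, y, hab, hy⟩ := of_mem hP
  have hp' : Prime (p : ℤ) := Nat.prime_iff_prime_int.1 hp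
  obtain ⟨u, hu⟩ : ∃ u : ℤ, p * u ^ 2 = Q1 a b * Q2 a b := by
    obtain ⟨w, hw⟩ : IsSquare ((p : ℤ) * (Q1 a b * Q2 a b)) := Rat.isSquare_intCast_iff.1
      ⟨p * y, by rw [Int.cast_mul, ← hy]; push_cast; ring⟩
    obtain ⟨u, rfl⟩ : (p : ℤ) ∣ w := by
      rcases hp'.dvd_or_dvd (hw ▸ dvd_mul_right _ _ : (p : ℤ) ∣ w * w) with h | h <;> exact h
    exact ⟨u, mul_left_cancel₀ hp'.ne_zero (by linear_combination -hw)⟩
  have cop : ∀ q : ℤ, 1 < q → q ∣ a → q ∣ b → False := fun q h0 h1 h2 => by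
    have := Int.isUnit_iff.1 (hab.isUnit_of_dvd' h1 h2)
    omega
  have m5 : p % 5 = 2 ∨ p % 5 = 3 := by
    have key : ∀ q v s t : ZMod 5, s ≠ 0 → q * v ^ 2 = 3 * s ^ 4 + 5 * t → q = 2 ∨ q = 3 := by
      decide
    have fin : ((p : ZMod 5) = 2 ∨ (p : ZMod 5) = 3) → p % 5 = 2 ∨ p % 5 = 3 := fun h =>
      h.imp (fun h => (ZMod.natCast_eq_natCast_iff' p 2 5).1 h)
        fun h => (ZMod.natCast_eq_natCast_iff' p 3 5).1 h
    have z := fun c : ℤ => (ZMod.intCast_zmod_eq_zero_iff_dvd c 5).1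
    by_cases h5 : (5 : ℤ) ∣ a - 2 * b
    · obtain ⟨c, hc⟩ := h5
      obtain rfl : a = 2 * b + 5 * c := by omega
      have hb : ¬ (5 : ℤ) ∣ b := fun h => cop 5 (by norm_num) (by omega) h
      obtain ⟨t, ht⟩ : ∃ t : ℤ, p * u ^ 2 = 25 * (3 * b ^ 4 + 5 * t) :=
        ⟨2 * b ^ 3 * c - b ^ 2 * c ^ 2 - 10 * b * c ^ 3 - 10 * c ^ 4, by rw [hu, Q1, Q2]; ring⟩
      have p5 : Prime (5 : ℤ) := Int.prime_iff_natAbs_prime.2 (by norm_num)
      have h5u : (5 : ℤ) ∣ u := by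
        rcases p5.dvd_or_dvd (⟨5 * (3 * b ^ 4 + 5 * t), by linear_combination ht⟩ :
          (5 : ℤ) ∣ p * u ^ 2) with h | h
        · obtain rfl : 5 = p := (Nat.prime_dvd_prime_iff_eq (by norm_num) hp).1 (by exact_mod_cast h)
          exact p5.dvd_of_dvd_pow (n := 2) ⟨3 * b ^ 4 + 5 * t, by push_cast at ht; linarith⟩
        · exact p5.dvd_of_dvd_pow h
      obtain ⟨v, rfl⟩ := h5u
      have e : (p : ℤ) * v ^ 2 = 3 * b ^ 4 + 5 * t := by linarith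
      exact fin (key p v b t (fun h => hb (z b h))
        (by exact_mod_cast congrArg (Int.cast : ℤ → ZMod 5) e))
    · obtain ⟨t, e⟩ : ∃ t : ℤ, (p : ℤ) * u ^ 2 = 3 * (a - 2 * b) ^ 4 + 5 * t :=
        ⟨-a ^ 4 + 6 * a ^ 3 * b - 13 * a ^ 2 * b ^ 2 + 22 * a * b ^ 3 - 9 * b ^ 4, by
          rw [hu, Q1, Q2]; ring⟩
      exact fin (key p u (a - 2 * b : ℤ) t (fun h => h5 (z _ h))
        (by exact_mod_cast congrArg (Int.cast : ℤ → ZMod 5) e))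
  have p2 : p ≠ 2 := by
    rintro rfl
    have key : ∀ a b u : ZMod 8, 2 * u ^ 2 = Q1 a b * Q2 a b → 4 * a = 0 ∧ 4 * b = 0 := by
      unfold Q1 Q2; decide
    obtain ⟨h1, h2⟩ := key a b u (by
      unfold Q1 Q2 at hu ⊢; exact_mod_cast congrArg (Int.cast : ℤ → ZMod 8) hu)
    have h3 := (ZMod.intCast_zmod_eq_zero_iff_dvd (4 * a) 8).1 (by exact_mod_cast h1)
    have h4 := (ZMod.intCast_zmod_eq_zero_iff_dvd (4 * b) 8).1 (by exact_mod_cast h2)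
    exact cop 2 (by norm_num) (by omega) (by omega)
  have key : ¬ IsSquare ((2 : ℕ) : ZMod 5) ∧ ¬ IsSquare ((3 : ℕ) : ZMod 5) := by decide
  have : Fact p.Prime := ⟨hp⟩
  have : Fact (Nat.Prime 5) := ⟨by norm_num⟩
  have n5 : ¬ IsSquare (5 : ZMod p) := by
    have := ZMod.exists_sq_eq_prime_iff_of_mod_four_eq_one (p := 5) (q := p) rfl p2
    rw [Nat.cast_ofNat] at this
    rw [← this, ← ZMod.natCast_mod]
    rcases m5 with h | h <;> rw [h]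
    exacts [key.1, key.2]
  have z := fun c : ℤ => ZMod.intCast_zmod_eq_zero_iff_dvd c p
  have m4 : p % 4 = 3 := by
    by_contra h4
    obtain ⟨i, hi⟩ := ZMod.exists_sq_eq_neg_one_iff.2 h4
    have hb : ∀ s : ZMod p, s ^ 2 = 5 * (b : ZMod p) ^ 2 → (b : ZMod p) = 0 := fun s hs => by
      by_contra hb
      exact n5 ⟨s / b, by field_simp; exact hs.symm⟩
    have two : (2 : ZMod p) ≠ 0 := fun h =>
      p2 ((Nat.prime_dvd_prime_iff_eq hp Nat.prime_two).1 ((ZMod.natCast_eq_zero_iff 2 p).1 h))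
    have fin : (a : ZMod p) = 0 → (b : ZMod p) = 0 → False := fun h1 h2 =>
      cop p (by exact_mod_cast hp.one_lt) ((z a).1 h1) ((z b).1 h2)
    rcases hp'.dvd_or_dvd (hu ▸ dvd_mul_right _ _ : (p : ℤ) ∣ Q1 a b * Q2 a b) with h | h
    · have h := (z _).2 h
      unfold Q1 at h
      push_cast at h
      have b0 := hb (i * (2 * a + b)) (by linear_combination -(2 * a + b) ^ 2 * hi - 2 * h)
      rw [b0] at h
      exact fin (pow_eq_zero_iff two_ne_zero |>.1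
        ((mul_eq_zero.1 (by linear_combination h)).resolve_left two)) b0
    · have h := (z _).2 h
      unfold Q2 at h
      push_cast at h
      have b0 := hb (a - 2 * b) (by linear_combination -h)
      rw [b0] at h
      exact fin (pow_eq_zero_iff two_ne_zero |>.1 (by linear_combination -h)) b0
  omega

end Pool.Agent.Lib.MP_d6ddbd_nt
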