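import Pool.Agent.Lib.MP_9177b7_ag.CM.Main
import Pool.Agent.Lib.MP_0c15f2_nt.Add
import Pool.Agent.Lib.MP_d6ddbd_nt.Alg

/-! Values of the Weierstrass function at division points and their conjugates. -/

open Filter Topology Polynomial Pointwise
open Pool.Agent.Lib.MP_9177b7_ag.CM

noncomputable section

namespace Pool.Agent.Lib.MP_d6ddbd_nt

/-- The Weierstrass function of a lattice. -/
def wp (L : Submodule ℤ ℂ) (z : ℂ) : ℂ := ∑' l : L, (1 / (z - l) ^ 2 - 1 / (l : ℂ) ^ 2)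

theorem wp_eq (P : PeriodPair) : wp P.lattice = P.weierstrassP := rfl

variable {L L' M M' : Submodule ℤ ℂ}

theorem wp_neg (hL : IsLat L) (z : ℂ) : wp L (-z) = wp L z := by
  obtain ⟨P, rfl⟩ := hL
  exact P.weierstrassP_neg z

theorem wp_congr (hL : IsLat L) {z w : ℂ} (h : w - z ∈ L) : wp L w = wp L z := by
  obtain ⟨P, rfl⟩ := hL
  have := P.weierstrassP_add_coe z ⟨_, h⟩
  simpa [wp_eq] using this

theorem wp_congr' (hL : IsLat L) {z w : ℂ} (h : w + z ∈ L) : wp L w = wp L z := by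
  rw [← wp_neg hL z]
  exact wp_congr hL (by simpa using h)

theorem wp_smul (L : Submodule ℤ ℂ) {c : ℂ} (hc : c ≠ 0) (z : ℂ) :
    wp (c • L) (c * z) = (c ^ 2)⁻¹ * wp L z := by
  unfold wp
  rw [← (Lat.smulEquiv L c hc).tsum_eq, ← tsum_mul_left]
  congr 1
  funext l
  change 1 / (c * z - c * l) ^ 2 - 1 / (c * l) ^ 2 = _
  rw [← mul_sub, mul_pow, mul_pow]
  simp only [one_div, mul_inv]
  ring

theorem wp_inj (hL : IsLat L) {u v : ℂ} (hu : u ∉ L) (hv : v ∉ L) (h : wp L u = wp L v) :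
    u - v ∈ L ∨ u + v ∈ L := by
  obtain ⟨P, rfl⟩ := hL
  exact MP_0c15f2_nt.wp_inj hu hv h

theorem wp_half (hL : IsLat L) {u : ℂ} (hu : u ∉ L) (h : 2 * u ∈ L) :
    4 * wp L u ^ 3 - g2 L * wp L u - g3 L = 0 := by
  obtain ⟨P, rfl⟩ := hL
  have := P.derivWeierstrassP_sq u hu
  rw [MP_0c15f2_nt.wp'_half h] at this
  change 4 * P.weierstrassP u ^ 3 - P.g₂ * P.weierstrassP u - P.g₃ = 0
  linear_combination -this

theorem wp_dup (hL : IsLat L) {z : ℂ} (hz : z ∉ L) (h2 : 2 * z ∉ L) (hne : wp L z ≠ wp L (2 * z)) :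
    16 * (2 * wp L z + wp L (2 * z)) * (4 * wp L z ^ 3 - g2 L * wp L z - g3 L) =
      (12 * wp L z ^ 2 - g2 L) ^ 2 := by
  obtain ⟨P, rfl⟩ := hL
  rw [two_mul z] at h2 hne ⊢
  have e1 := MP_0c15f2_nt.fs hz hz h2
  have e2 := MP_0c15f2_nt.fs_deriv hz hz h2
  have e3 := P.derivWeierstrassP_sq z hz
  have e4 := P.derivWeierstrassP_sq _ h2
  change 16 * (2 * P.weierstrassP z + P.weierstrassP (z + z)) *
    (4 * P.weierstrassP z ^ 3 - P.g₂ * P.weierstrassP z - P.g₃) =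
      (12 * P.weierstrassP z ^ 2 - P.g₂) ^ 2
  change P.weierstrassP z ≠ P.weierstrassP (z + z) at hne
  generalize MP_0c15f2_nt.wzeta P (z + z) - MP_0c15f2_nt.wzeta P z - MP_0c15f2_nt.wzeta P z = l
    at e1 e2
  generalize P.weierstrassP z = x at *
  generalize P.weierstrassP (z + z) = x' at *
  generalize P.derivWeierstrassP z = y at *
  generalize P.derivWeierstrassP (z + z) = y' at *
  have e5 : y' = 2 * l * (x - x') - y := by linear_combination -e2
  subst e5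
  have e6 : 4 * l * y = 12 * x ^ 2 - P.g₂ :=
    mul_left_cancel₀ (sub_ne_zero.2 hne) (by
      linear_combination e3 - e4 + 4 * (x - x') ^ 2 * e1)
  rw [← e6, ← e3]
  linear_combination (-16 * y ^ 2) * e1

open Rat in
theorem rat' (P P' : PeriodPair) (h : P.lattice ≤ P'.lattice) : ∃ (A : ℂ[X]) (T : Finset ℂ),
    (∀ v ∈ T, ∃ t ∈ P'.lattice, t ∉ P.lattice ∧ P.weierstrassP t = v) ∧
    ∀ z : ℂ, z ∉ P'.lattice → (∏ v ∈ T, (X - C v) ^ 2).eval (P.weierstrassP z) *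
      P'.weierstrassP z = A.eval (P.weierstrassP z) := by
  obtain ⟨T, hT, hT'⟩ : ∃ T : Finset ℂ, (∀ t ∈ P'.lattice, t ∉ P.lattice → P.weierstrassP t ∈ T) ∧
      ∀ v ∈ T, ∃ t ∈ P'.lattice, t ∉ P.lattice ∧ P.weierstrassP t = v := by
    have hf : (P.weierstrassP '' {t | t ∈ P'.lattice ∧ t ∉ P.lattice}).Finite :=
      (finite_vals P P' h).subset (Set.image_mono fun t ht => ht.1)
    refine ⟨hf.toFinset, fun t ht ht' => ?_, fun v hv => ?_⟩
    · rw [Set.Finite.mem_toFinset]; exact ⟨t, ⟨ht, ht'⟩, rfl⟩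
    · rw [Set.Finite.mem_toFinset] at hv
      obtain ⟨t, ht, e⟩ := hv
      exact ⟨t, ht.1, ht.2, e⟩
  have an : ∀ t, t ∉ P.lattice → ∀ T : Finset ℂ,
      AnalyticAt ℂ (fun z => ∏ v ∈ T, (P.weierstrassP z - v) ^ 2) t := by
    intro t ht T
    have := P.analyticOnNhd_weierstrassP t ht
    exact Finset.analyticAt_fun_prod T fun v _ => by fun_prop
  have an2 : ∀ t, t ∉ P'.lattice → AnalyticAt ℂ
      (fun z => (∏ v ∈ T, (P.weierstrassP z - v) ^ 2) * P'.weierstrassP z) t :=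
    fun t ht => (an t (fun e => ht (h e)) T).mul (P'.analyticOnNhd_weierstrassP t ht)
  have k := key P P'.lattice (fun z hz e => hz (h e)) (2 * T.card + 1)
    (fun z => (∏ v ∈ T, (P.weierstrassP z - v) ^ 2) * P'.weierstrassP z) (fun t ht => ?_)
    (fun z hz => (an2 z hz).continuousAt) (fun z => by simp) (fun l hl z => ?_) ?_
  · obtain ⟨A, hA⟩ := k
    refine ⟨A, T, hT', fun z hz => ?_⟩
    rw [← hA z hz, eval_prod]
    simp
  · by_cases ht' : t ∈ P'.lattice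
    · have hw := P.analyticOnNhd_weierstrassP t ht
      obtain ⟨g, hg, e⟩ := (natCast_le_analyticOrderAt
        (f := fun z => P.weierstrassP z - P.weierstrassP t) (z₀ := t) (by fun_prop) (n := 1)).1
        ((natCast_le_analyticOrderAt_iff_iteratedDeriv_eq_zero (by fun_prop)).2 fun i hi => by
          obtain rfl : i = 0 := by omega
          simp)
      obtain ⟨ψ, hψ, e'⟩ := pole_wp P' ht'
      have h3 := an t ht (T.erase (P.weierstrassP t))
      refine ⟨fun z => g z ^ 2 * (∏ v ∈ T.erase (P.weierstrassP t), (P.weierstrassP z - v) ^ 2) *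
        ψ z, by fun_prop, ?_⟩
      filter_upwards [e', mem_nhdsWithin_of_mem_nhds e] with z a b
      rw [← Finset.mul_prod_erase T _ (hT t ht' ht), b, ← a]
      simp only [smul_eq_mul]
      ring
    · exact pole_of_analytic (an2 t ht')
  · have a := P.weierstrassP_add_coe z ⟨l, hl⟩
    have b := P'.weierstrassP_add_coe z ⟨l, h hl⟩
    simp only at a b ⊢
    rw [a, b]
  · exact (pole_prod P T).mul (pole_wp P' (zero_mem _))

open Mono in
theorem rel_transfer {σ : ℂ →+* ℂ} {P P' Q Q' : PeriodPair} (h1 : Conj σ P.lattice Q.lattice)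
    (h2 : Conj σ P'.lattice Q'.lattice) {A B : ℂ[X]} (hAB : ∀ z : ℂ, z ∉ P'.lattice →
      B.eval (P.weierstrassP z) * P'.weierstrassP z = A.eval (P.weierstrassP z)) :
    ∀ z : ℂ, z ∉ Q.lattice → z ∉ Q'.lattice → (B.map σ).eval (Q.weierstrassP z) *
      Q'.weierstrassP z - (A.map σ).eval (Q.weierstrassP z) = 0 := by
  have hA1 : A.natDegree ≤ max A.natDegree B.natDegree := le_max_left _ _
  have hB1 : B.natDegree ≤ max A.natDegree B.natDegree := le_max_right _ _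
  have t1 := transfer σ (analyticAt_vec P P') (analyticAt_vec Q Q') (fun i => by
      fin_cases i
      · exact tay_id.trans ((PowerSeries.map_X σ).symm.trans (congrArg _ tay_id.symm))
      · exact tay_ph h1
      · exact tay_ph h2)
    (hm B (max A.natDegree B.natDegree) * MvPolynomial.X 2 -
      MvPolynomial.X 0 ^ 2 * hm A (max A.natDegree B.natDegree)) (by
      filter_upwards [ev_notMem P'] with z hz
      rw [eval_rel hA1 hB1 P P' hz.1, hAB z hz.2, sub_self, mul_zero])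
  rw [map_sub, map_mul, map_mul, map_pow, map_hm, map_hm, MvPolynomial.map_X,
    MvPolynomial.map_X] at t1
  have t2 : ∀ᶠ z in 𝓝 (0 : ℂ), z ≠ 0 → (B.map σ).eval (Q.weierstrassP z) * Q'.weierstrassP z -
      (A.map σ).eval (Q.weierstrassP z) = 0 := by
    filter_upwards [t1] with z hz hz0
    rw [eval_rel (Polynomial.natDegree_map_le.trans hA1) (Polynomial.natDegree_map_le.trans hB1)
      Q Q' hz0] at hz
    exact (mul_eq_zero.1 hz).resolve_left (pow_ne_zero _ hz0)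
  have an : AnalyticOnNhd ℂ (fun z => (B.map σ).eval (Q.weierstrassP z) * Q'.weierstrassP z -
      (A.map σ).eval (Q.weierstrassP z)) ((Q.lattice : Set ℂ) ∪ Q'.lattice)ᶜ := fun z hz => by
    have a1 := analyticAt_wp Q fun h => hz (Or.inl h)
    have a2 := analyticAt_wp Q' fun h => hz (Or.inr h)
    exact ((a1.aeval_polynomial _).mul a2).sub (a1.aeval_polynomial _)
  obtain ⟨y, hy1, hy2, hy3⟩ := ((t2.eventually_nhds.filter_mono
    (nhdsWithin_le_nhds (s := {0}ᶜ))).and ((ev_notMem Q).and (ev_notMem Q'))).exists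
  have t3 := an.eqOn_zero_of_preconnected_of_eventuallyEq_zero
    (((countable_lattice Q).union (countable_lattice Q')).isConnected_compl_of_one_lt_rank
      (by simp)).isPreconnected (z₀ := y) (fun h => h.elim hy2.2 hy3.2) (by
      filter_upwards [hy1, isOpen_ne.mem_nhds hy2.1] with z h1 h2 using h1 h2)
  exact fun z a b => t3 (x := z) fun h => h.elim a b

theorem tr {σ : ℂ →+* ℂ} (h1 : Conj σ L M) (h2 : Conj σ L' M') (hle : L ≤ L') {w : ℂ}
    (hw : w ∈ M') (hw' : w ∉ M) : ∃ t ∈ L', t ∉ L ∧ σ (wp L t) = wp M w := by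
  obtain ⟨P, rfl⟩ := h1.1
  obtain ⟨P', rfl⟩ := h2.1
  obtain ⟨Q, rfl⟩ := h1.2.1
  obtain ⟨Q', rfl⟩ := h2.2.1
  obtain ⟨A, T, hT, hA⟩ := rat' P P' hle
  have t3 := rel_transfer h1 h2 hA
  set B := (∏ v ∈ T, (X - C v) ^ 2).map σ with hB
  have hz : B.eval (Q.weierstrassP w) = 0 := by
    by_contra hne
    have c1 : ContinuousAt (fun z : ℂ => z + w) 0 := by fun_prop
    have c2 : ContinuousAt (fun z : ℂ => Q.weierstrassP (z + w)) 0 :=
      (Mono.analyticAt_wp Q hw').continuousAt.comp_of_eq c1 (zero_add w)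
    have c3 : ∀ p : ℂ[X], ContinuousAt (fun z : ℂ => p.eval (Q.weierstrassP (z + w))) 0 :=
      fun p => p.continuous.continuousAt.comp c2
    have c4 : ∀ᶠ z in 𝓝 (0 : ℂ), B.eval (Q.weierstrassP (z + w)) ≠ 0 :=
      (c3 B).eventually_ne (by simpa using hne)
    have e2 := Mono.ev_ne Q' (g := fun z => (A.map σ).eval (Q.weierstrassP (z + w)) /
      B.eval (Q.weierstrassP (z + w))) ((c3 _).div (c3 B) (by simpa using hne))
    obtain ⟨z, z1, z2, z3, z4⟩ := (e2.and ((c4.filter_mono nhdsWithin_le_nhds).and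
      ((MP_0c15f2_nt.ev_add_notMem Q 0 w).and (MP_0c15f2_nt.ev_add_notMem Q' 0 w)))).exists
    have u := t3 (z + w) z3 z4
    rw [MP_0c15f2_nt.wp_add hw] at u
    apply z1
    rw [eq_div_iff z2]
    linear_combination u
  rw [hB, Polynomial.map_prod, eval_prod, Finset.prod_eq_zero_iff] at hz
  obtain ⟨v, hv, e⟩ := hz
  obtain ⟨t, a, b, c⟩ := hT v hv
  refine ⟨t, a, b, ?_⟩
  simp only [Polynomial.map_pow, Polynomial.map_sub, map_X, map_C, eval_pow, eval_sub, eval_X,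
    eval_C] at e
  rw [wp_eq, wp_eq, c]
  exact (sub_eq_zero.1 (pow_eq_zero_iff two_ne_zero |>.1 e)).symm

/-- The lattice generated by `L` and `z`. -/
def ext (L : Submodule ℤ ℂ) (z : ℂ) : Submodule ℤ ℂ := L ⊔ Submodule.span ℤ {z}

theorem mem_ext {x z : ℂ} : x ∈ ext L z ↔ ∃ k : ℤ, x - k * z ∈ L := by
  simp only [ext, Submodule.mem_sup, Submodule.mem_span_singleton, zsmul_eq_mul]
  constructor
  · rintro ⟨y, hy, _, ⟨k, rfl⟩, rfl⟩
    exact ⟨k, by simpa using hy⟩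
  · rintro ⟨k, hk⟩
    exact ⟨_, hk, _, ⟨k, rfl⟩, by ring⟩

theorem le_ext (z : ℂ) : L ≤ ext L z := le_sup_left

theorem self_mem_ext (z : ℂ) : z ∈ ext L z := mem_ext.2 ⟨1, by simp⟩

theorem imul {w : ℂ} (hw : w ∈ L) (m : ℤ) : (m : ℂ) * w ∈ L := Lat.int_mul_mem hw m

theorem ext_le {z : ℂ} {X : Submodule ℤ ℂ} (h1 : L ≤ X) (h2 : z ∈ X) : ext L z ≤ X := fun x hx => by
  obtain ⟨k, hk⟩ := mem_ext.1 hx
  simpa using X.add_mem (h1 hk) (imul h2 k)

theorem mul_mem_of_le {α w : ℂ} (h : α • L ≤ M) (hw : w ∈ L) : α * w ∈ M :=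
  h (mem_smul_iff.2 ⟨w, hw, rfl⟩)

theorem isLat_ext (hL : IsLat L) {N : ℕ} (hN : N ≠ 0) {z : ℂ} (hz : N * z ∈ L) :
    IsLat (ext L z) := by
  have hN' : (N : ℂ) ≠ 0 := by exact_mod_cast hN
  refine hyp.isLat_between hL (hyp.isLat_smul hL (inv_ne_zero hN')) (le_ext z) (ext_le ?_ ?_)
  · intro x hx
    exact mem_smul_iff.2 ⟨N * x, by simpa using imul hx N, by field_simp⟩
  · exact mem_smul_iff.2 ⟨N * z, hz, by field_simp⟩

variable {σ : ℂ ≃+* ℂ}

theorem lift {l : ℕ} (hl : l.Prime) (h1 : Conj (σ : ℂ →+* ℂ) L M) {z : ℂ} (hz : l * z ∈ L)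
    (hz' : z ∉ L) : ∃ z' : ℂ, l * z' ∈ M ∧ z' ∉ M ∧ Conj (σ : ℂ →+* ℂ) (ext L z) (ext M z') := by
  have hl0 : (l : ℂ) ≠ 0 := by exact_mod_cast hl.ne_zero
  obtain ⟨N, hN⟩ := hyp.exists_conj (σ : ℂ →+* ℂ) (isLat_ext h1.1 hl.ne_zero hz)
  have a1 : M ≤ N := hyp.conj_mono h1 hN (le_ext z)
  have a2 : ¬ N ≤ M := fun h => hz' (hyp.conj_mono hN.symm h1.symm h (self_mem_ext z))
  obtain ⟨z', b1, b2⟩ := SetLike.not_le_iff_exists.1 a2
  have a3 : (l : ℂ) • ext L z ≤ L := fun x hx => by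
    obtain ⟨y, hy, rfl⟩ := mem_smul_iff.1 hx
    obtain ⟨k, hk⟩ := mem_ext.1 hy
    have := L.add_mem (imul hk l) (imul hz k)
    convert this using 1
    push_cast; ring
  have a4 := hyp.conj_mono (hyp.conj_smul hN hl0) h1 a3
  rw [map_natCast] at a4
  have a5 : l * z' ∈ M := mul_mem_of_le a4 b1
  refine ⟨z', a5, b2, ?_⟩
  have a6 := isLat_ext h1.2.1 hl.ne_zero a5
  obtain ⟨Y, hY⟩ := hyp.exists_conj (σ.symm : ℂ →+* ℂ) a6
  have hY' : Conj (σ : ℂ →+* ℂ) Y (ext M z') := by simpa using Conj.symm (σ := σ.symm) hY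
  have c1 : L ≤ Y := hyp.conj_mono h1.symm hY (le_ext z')
  have c2 : Y ≤ ext L z := hyp.conj_mono hY hN.symm (ext_le a1 b1)
  have c3 : ¬ Y ≤ L := fun h => b2 (hyp.conj_mono hY' h1 h (self_mem_ext z'))
  obtain ⟨y, d1, d2⟩ := SetLike.not_le_iff_exists.1 c3
  obtain ⟨k, hk⟩ := mem_ext.1 (c2 d1)
  have hk' : ¬ (l : ℤ) ∣ k := by
    rintro ⟨m, rfl⟩
    apply d2
    have := L.add_mem hk (imul hz m)
    convert this using 1
    push_cast; ring
  obtain ⟨u, v, huv⟩ := (Nat.prime_iff_prime_int.1 hl).irreducible.coprime_iff_not_dvd.2 hk'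
  have huv' : (u : ℂ) * l + v * k = 1 := by exact_mod_cast huv
  have c4 : z ∈ Y := by
    have := Y.add_mem (c1 (imul hz u)) (imul (Y.sub_mem d1 (c1 hk)) v)
    convert this using 1
    linear_combination (-z) * huv'
  rwa [← le_antisymm c2 (ext_le c1 c4)]

theorem conj_ext_mul (h1 : Conj (σ : ℂ →+* ℂ) L M) {z z' α : ℂ}
    (h2 : Conj (σ : ℂ →+* ℂ) (ext L z) (ext M z')) {N : ℕ} (hN : N ≠ 0) (hz : N * z ∈ L)
    (h0 : α ≠ 0) (hα : α • L ≤ L) : Conj (σ : ℂ →+* ℂ) (ext L (α * z)) (ext M (σ α * z')) := by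
  have key : ∀ (X : Submodule ℤ ℂ) (c w : ℂ), c • X ≤ X → X ⊔ c • ext X w = ext X (c * w) := by
    intro X c w hc
    refine le_antisymm (sup_le (le_ext _) fun x hx => ?_) (ext_le le_sup_left ?_)
    · obtain ⟨y, hy, rfl⟩ := mem_smul_iff.1 hx
      obtain ⟨k, hk⟩ := mem_ext.1 hy
      exact mem_ext.2 ⟨k, by convert mul_mem_of_le hc hk using 1; ring⟩
    · exact Submodule.mem_sup_right (mem_smul_iff.2 ⟨w, self_mem_ext w, rfl⟩)
  have hM : σ α • M ≤ M := hyp.conj_mono (hyp.conj_smul h1 h0) h1 hα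
  have hl : IsLat (ext L (α * z)) :=
    isLat_ext h1.1 hN (by convert mul_mem_of_le hα hz using 1; ring)
  obtain ⟨Y, hY⟩ := hyp.exists_conj (σ : ℂ →+* ℂ) hl
  have := hyp.conj_sup h1 (hyp.conj_smul h2 h0) (N := Y) (by rwa [key L α z hα])
  rw [← key M _ z' hM]
  exact this ▸ hY

theorem notMem_of_conj (h1 : Conj (σ : ℂ →+* ℂ) L M) {z z' : ℂ}
    (h2 : Conj (σ : ℂ →+* ℂ) (ext L z) (ext M z')) (hz : z ∉ L) : z' ∉ M := fun h =>
  hz (hyp.conj_mono h2.symm h1.symm (ext_le le_rfl h) (self_mem_ext z))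

theorem val_two (h1 : Conj (σ : ℂ →+* ℂ) L M) {z z' : ℂ}
    (h2 : Conj (σ : ℂ →+* ℂ) (ext L z) (ext M z')) (hz : 2 * z ∈ L) (hz' : z ∉ L) :
    σ (wp L z) = wp M z' := by
  obtain ⟨t, a, b, c⟩ := tr h1 h2 (le_ext z) (self_mem_ext z') (notMem_of_conj h1 h2 hz')
  obtain ⟨k, hk⟩ := mem_ext.1 a
  rw [← c]
  obtain ⟨m, rfl | rfl⟩ := Int.even_or_odd' k
  · exact absurd (by convert L.add_mem hk (imul hz m) using 1; push_cast; ring) b
  · exact congrArg σ (wp_congr h1.1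
      (by convert L.add_mem hk (imul hz m) using 1; push_cast; ring)).symm

/-- The sum of the two values on a cyclic group of order five. -/
def s5 (L : Submodule ℤ ℂ) (z : ℂ) : ℂ := wp L z + wp L (2 * z)

theorem five_cases (hL : IsLat L) {z t : ℂ} (hz : 5 * z ∈ L) (k : ℤ) (hk : t - k * z ∈ L)
    (ht : t ∉ L) : (wp L t = wp L z ∧ wp L (2 * t) = wp L (2 * z)) ∨
      (wp L t = wp L (2 * z) ∧ wp L (2 * t) = wp L z) := by
  obtain ⟨m, hm⟩ : ∃ m : ℤ, k = 5 * m ∨ k = 5 * m + 1 ∨ k = 5 * m + 2 ∨ k = 5 * m - 1 ∨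
      k = 5 * m - 2 := ⟨(k + 2) / 5, by omega⟩
  have h1 := L.add_mem hk (imul hz m)
  have h2 := imul h1 2
  rcases hm with rfl | rfl | rfl | rfl | rfl
  · exact absurd (by convert h1 using 1; push_cast; ring) ht
  · exact Or.inl ⟨wp_congr hL (by convert h1 using 1; push_cast; ring),
      wp_congr hL (by convert h2 using 1; push_cast; ring)⟩
  · exact Or.inr ⟨wp_congr hL (by convert h1 using 1; push_cast; ring),
      wp_congr' hL (by convert L.add_mem h2 hz using 1; push_cast; ring)⟩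
  · exact Or.inl ⟨wp_congr' hL (by convert h1 using 1; push_cast; ring),
      wp_congr' hL (by convert h2 using 1; push_cast; ring)⟩
  · exact Or.inr ⟨wp_congr' hL (by convert h1 using 1; push_cast; ring),
      wp_congr hL (by convert L.sub_mem h2 hz using 1; push_cast; ring)⟩

theorem s5_congr (hL : IsLat L) {z t : ℂ} (hz : 5 * z ∈ L) (k : ℤ) (hk : t - k * z ∈ L)
    (ht : t ∉ L) : s5 L t = s5 L z := by
  unfold s5
  rcases five_cases hL hz k hk ht with ⟨a, b⟩ | ⟨a, b⟩ <;> rw [a, b]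
  ring

theorem two_notMem {z : ℂ} (hz : 5 * z ∈ L) (hz' : z ∉ L) : 2 * z ∉ L := fun h =>
  hz' (by convert L.sub_mem hz (imul h 2) using 1; push_cast; ring)

theorem wp_ne_five (hL : IsLat L) {z : ℂ} (hz : 5 * z ∈ L) (hz' : z ∉ L) :
    wp L z ≠ wp L (2 * z) := fun h => by
  rcases wp_inj hL hz' (two_notMem hz hz') h with h | h
  · exact hz' (by convert L.neg_mem h using 1; ring)
  · exact hz' (by convert L.sub_mem (imul h 2) hz using 1; push_cast; ring)

theorem val_five (h1 : Conj (σ : ℂ →+* ℂ) L M) {z z' : ℂ}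
    (h2 : Conj (σ : ℂ →+* ℂ) (ext L z) (ext M z')) (hz : 5 * z ∈ L) (hw : 5 * z' ∈ M)
    (hz' : z ∉ L) : σ (s5 L z) = s5 M z' := by
  have hw' := notMem_of_conj h1 h2 hz'
  obtain ⟨t, a, b, c⟩ := tr h1 h2 (le_ext z) (self_mem_ext z') hw'
  obtain ⟨t', a', b', c'⟩ := tr h1 h2 (le_ext z) (w := 2 * z')
    (by simpa using imul (self_mem_ext z') 2) (two_notMem hw hw')
  obtain ⟨k, hk⟩ := mem_ext.1 a
  obtain ⟨k', hk'⟩ := mem_ext.1 a'
  have ne := wp_ne_five h1.2.1 hw hw'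
  unfold s5
  rw [← c, ← c'] at ne ⊢
  rw [map_add]
  rcases five_cases h1.1 hz k hk b with ⟨e, -⟩ | ⟨e, -⟩ <;>
    rcases five_cases h1.1 hz k' hk' b' with ⟨e', -⟩ | ⟨e', -⟩ <;> rw [e, e'] at ne ⊢
  · exact absurd rfl ne
  · rfl
  · exact add_comm _ _
  · exact absurd rfl ne

theorem s5_root (hL : IsLat L) {z : ℂ} (hz : 5 * z ∈ L) (hz' : z ∉ L) (hb : g3 L ≠ 0) :
    Fk (g2 L) (g3 L) (s5 L z) = 0 ∧ s5 L z ≠ 0 ∧ 6 * (wp L z * wp L (2 * z)) * s5 L z =
      s5 L z ^ 3 + g2 L * s5 L z / 2 + g3 L := by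
  have ne := wp_ne_five hL hz hz'
  have h2 := two_notMem hz hz'
  have h5 : 5 * (2 * z) ∈ L := by convert imul hz 2 using 1; push_cast; ring
  have e4 : wp L (2 * (2 * z)) = wp L z := wp_congr' hL (by convert hz using 1; ring)
  have d1 := wp_dup hL hz' h2 ne
  have d2 := wp_dup hL h2 (two_notMem h5 h2) (wp_ne_five hL h5 h2)
  rw [e4] at d2
  unfold s5 Fk
  generalize wp L z = x at *
  generalize wp L (2 * z) = y at *
  generalize g2 L = a at *
  generalize g3 L = b at *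
  have e1 : 6 * (x * y) * (x + y) = (x + y) ^ 3 + a * (x + y) / 2 + b :=
    mul_left_cancel₀ (sub_ne_zero.2 ne) (by linear_combination (1 / 16) * (d1 - d2))
  have e2 : (x + y) ^ 4 - 8 * (x + y) ^ 2 * (x * y) + 10 * (x * y) ^ 2 + a * (x + y) ^ 2 / 2 +
      a * (x * y) + 3 * b * (x + y) + a ^ 2 / 8 = 0 := by
    linear_combination (-1 / 16) * (d1 + d2)
  refine ⟨?_, fun h => hb (by rw [h] at e1; linear_combination -e1), e1⟩
  linear_combination (-18 * (x + y) ^ 2) * e2 + (-24 * (x + y) ^ 3 + 3 * a * (x + y) +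
    5 * (6 * (x * y) * (x + y) + ((x + y) ^ 3 + a * (x + y) / 2 + b))) * e1

theorem s5_inj (hL : IsLat L) {z w : ℂ} (hz : 5 * z ∈ L) (hz' : z ∉ L) (hw : 5 * w ∈ L)
    (hw' : w ∉ L) (hb : g3 L ≠ 0) (h : s5 L z = s5 L w) : ∃ k : ℤ, w - k * z ∈ L := by
  obtain ⟨-, n1, e1⟩ := s5_root hL hz hz' hb
  obtain ⟨-, -, e2⟩ := s5_root hL hw hw' hb
  rw [← h] at e2
  have e3 : wp L z * wp L (2 * z) = wp L w * wp L (2 * w) :=
    mul_right_cancel₀ n1 (by linear_combination (1 / 6) * (e1 - e2))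
  unfold s5 at h
  have e4 : (wp L w - wp L z) * (wp L w - wp L (2 * z)) = 0 := by
    linear_combination e3 - wp L w * h
  rcases mul_eq_zero.1 e4 with e | e
  · rcases wp_inj hL hw' hz' (sub_eq_zero.1 e) with e | e
    · exact ⟨1, by simpa using e⟩
    · exact ⟨-1, by simpa using e⟩
  · rcases wp_inj hL hw' (two_notMem hz hz') (sub_eq_zero.1 e) with e | e
    · exact ⟨2, by simpa using e⟩
    · exact ⟨-2, by simpa using e⟩

end Pool.Agent.Lib.MP_d6ddbd_nt
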