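import Pool.Agent.Lib.MP_d6ddbd_nt.Cm
import Pool.Agent.Lib.MP_d6ddbd_nt.Gal
import Pool.Agent.Lib.MP_d6ddbd_nt.Arith

/-! Existence of rational points. -/

open Polynomial IntermediateField
open Pool.Agent.Lib.MP_9177b7_ag.CM

noncomputable section

namespace Pool.Agent.Lib.MP_d6ddbd_nt

theorem cm_point {n k β m e : ℤ} (hn : 2 ≤ n) (hp : Prime (4 * n - 1))
    (hk : 2 * k * β = 1 + 5 * m) (he : k ^ 2 * (1 - 4 * n) = 2 + 5 * e) :
    ∃ s t : ℚ, t ^ 2 = (4 * n - 1) * ((2 * s ^ 2 + 2 * s + 3) * (1 + 4 * s - s ^ 2)) := by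
  have hpos : (0 : ℝ) < 4 * n - 1 := by
    have : (2 : ℝ) ≤ n := by exact_mod_cast hn
    linarith
  obtain ⟨ω, hω, him⟩ : ∃ ω : ℂ, ω ^ 2 = ω - n ∧ 0 < ω.im := by
    refine ⟨⟨1 / 2, √(4 * n - 1) / 2⟩, ?_, by positivity⟩
    have := Real.mul_self_sqrt hpos.le
    apply Complex.ext <;> simp [pow_two] <;> linarith
  have hO := isLat_ord him.ne'
  have hle := smul_ord_le (om' hω)
  have he' : ((k : ℂ) * (2 * ω - 1)) ^ 2 = 2 + 5 * e := by
    have : (k : ℂ) ^ 2 * (1 - 4 * n) = 2 + 5 * e := by exact_mod_cast he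
    linear_combination this + 4 * k ^ 2 * hω
  have fix := cm_fix hω him.ne' hk he'
  have ha := g2_ne hω him.ne' hn
  have hb := g3_ne hω him.ne' hn
  have h1 : (1 : ℂ) ∈ sp 1 ω := left_mem_sp _ _
  have pol := tau_pol (ε := k * (2 * ω - 1)) (z := 1 / 5) hO (by
      convert lin_le hle (-k) (2 * k) using 2
      push_cast; ring) he' (by simpa using h1)
    (by simpa using div_notMem him.ne' (a := 1) (b := 0) (N := 5) (by norm_num) (by decide)) ha hb
  have gsq := gam_sq (y := 1 / 2) hO hle (by simpa using h1)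
    (by simpa using div_notMem him.ne' (a := 0) (b := 1) (N := 2) (by norm_num) (by decide))
    (by simpa [sub_eq_add_neg] using
      div_notMem him.ne' (a := 1) (b := -1) (N := 2) (by norm_num) (by decide))
  have hd := hyp.dis_ne_zero hO
  generalize tauL (sp 1 ω) (k * (2 * ω - 1)) (1 / 5) = τ at fix pol
  generalize gam (sp 1 ω) ω (1 / 2) = γ at fix gsq
  obtain ⟨hu, hdd, -, hr, e1⟩ := ne_of_pol ha hb hd pol
  have hj : jL (sp 1 ω) = 125 * uu τ ^ 3 / dd τ ^ 5 := by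
    unfold jL
    rw [div_eq_div_iff hd (pow_ne_zero _ hdd)]
    unfold Pol at pol
    unfold dis
    linear_combination -pol
  have hY : (54 * γ * dd τ ^ 3 / rr τ) ^ 2 = -(4 * n - 1) * qq τ * dd τ := by
    rw [div_pow, div_eq_iff (pow_ne_zero _ hr)]
    apply mul_left_cancel₀ (mul_ne_zero hd (pow_ne_zero 3 ha))
    unfold Pol at pol
    unfold dis at gsq ⊢
    linear_combination 2916 * g2 (sp 1 ω) ^ 3 * dd τ ^ 6 * gsq +
      (4 * n - 1) * (g2 (sp 1 ω) ^ 3 - 27 * g3 (sp 1 ω) ^ 2) * dd τ * e1 +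
      27 * (4 * n - 1) * g3 (sp 1 ω) ^ 2 * dd τ * pol +
      186624 * g2 (sp 1 ω) ^ 3 * g3 (sp 1 ω) ^ 2 * dd τ ^ 6 * hω
  have mj : ∀ f : ℂ →+* ℂ, f (jL (sp 1 ω)) = 125 * uu (f τ) ^ 3 / dd (f τ) ^ 5 := fun f => by
    simp only [hj, uu, dd, map_div₀, map_mul, map_sub, map_add, map_pow, map_ofNat, map_one]
  have fixY : ∀ σ : ℂ ≃+* ℂ, σ τ = τ →
      σ (54 * γ * dd τ ^ 3 / rr τ) = 54 * γ * dd τ ^ 3 / rr τ := fun σ h => by
    have := (fix σ (by have := mj σ; rw [RingHom.coe_coe, h] at this; rw [this, ← hj])).2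
    simp only [dd, rr, map_div₀, map_mul, map_sub, map_add, map_pow, map_ofNat, map_one, h, this]
  generalize 54 * γ * dd τ ^ 3 / rr τ = Y at hY fixY
  have hJ : jL (sp 1 ω) ∈ Jset ω := ⟨_, hO, hle, rfl⟩
  have c1 : starRingEnd ℂ τ = τ :=
    (fix cj (by rw [cj_apply, ← hyp.jL_bar hO, bar_ord (om' hω) him.ne'])).1
  have c2 : ∀ σ : ℂ ≃+* ℂ, starRingEnd ℂ (σ τ) = σ τ → σ τ = τ := fun σ h => by
    refine (fix σ (unique_real hω him hp
      (hyp.map_mem_Jset (om' hω) him.ne' (σ : ℂ →+* ℂ) hJ) ?_)).1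
    have a := mj ((starRingEnd ℂ).comp σ)
    have b := mj σ
    simp only [RingHom.comp_apply, RingHom.coe_coe, h] at a b
    exact a.trans b.symm
  have t0 : τ ≠ 0 := by
    rintro rfl
    have a : starRingEnd ℂ Y = Y := fixY cj c1
    obtain ⟨r, rfl⟩ := Complex.conj_eq_iff_real.1 a
    have : r ^ 2 = -(4 * n - 1) * 8 := by
      simp only [qq, dd] at hY
      exact_mod_cast (by linear_combination hY : (r : ℂ) ^ 2 = -(4 * n - 1) * 8)
    nlinarith [sq_nonneg r]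
  have iτ : IsIntegral ℚ τ := by
    have hj' := (hyp.isAlgebraic_of_mem_Jset (om' hω) him.ne' hJ).isIntegral
    have := adjoin.finiteDimensional hj'
    exact (Algebra.IsIntegral.isIntegral (R := ℚ)
      (⟨τ, mem_of_fix hj' fun σ h => (fix σ h).1⟩ : ℚ⟮jL (sp 1 ω)⟯)).map (val _)
  have back : ∀ u : ℂ, 3 - 2 / u = 3 - 2 / τ → u = τ := fun u h => by
    have : u⁻¹ = τ⁻¹ := by simp only [div_eq_mul_inv] at h; linear_combination -h / 2
    exact inv_injective this
  have mx : ∀ f : ℂ →+* ℂ, f (3 - 2 / τ) = 3 - 2 / f τ := fun f => by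
    simp only [map_sub, map_div₀, map_ofNat]
  have ix : IsIntegral ℚ (3 - 2 / τ) := by
    have : IsAlgebraic ℚ (3 - 2 * τ⁻¹) :=
      (isAlgebraic_natCast 3).sub ((isAlgebraic_natCast 2).mul iτ.isAlgebraic.inv)
    exact this.isIntegral
  have hn' : (0 : ℚ) < 4 * n - 1 := by exact_mod_cast hpos
  let F : ℚ[X] := C (-2 * (4 * (n : ℚ) - 1)) * X ^ 4 + C (4 * (n : ℚ) - 1) *
    (6 * X ^ 3 + 7 * X ^ 2 + 14 * X + 3)
  have hF : F.natDegree = 4 := by
    unfold F
    compute_degree!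
    linarith
  obtain ⟨s, t, hst⟩ := springer (x := 3 - 2 / τ) (y := 2 * Y / τ ^ 2) (F := F) hF
    (by
      have : F.coeff 4 = -2 * (4 * n - 1) := by
        unfold F
        compute_degree!
      rw [leadingCoeff, hF, this]; linarith) ix
    (odd_deg ix (by rw [mx, c1]) fun σ h => by
      have a := mx σ
      rw [RingHom.coe_coe] at a
      rw [a] at h ⊢
      rw [c2 σ]
      have : (starRingEnd ℂ (σ τ))⁻¹ = (σ τ)⁻¹ := by
        simp only [map_sub, map_mul, map_inv₀, map_ofNat, div_eq_mul_inv] at h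
        linear_combination -h / 2
      exact inv_injective this)
    (mem_of_fix ix fun σ h => by
      have a := back (σ τ) ((mx σ).symm.trans h)
      simp only [map_div₀, map_mul, map_pow, map_ofNat, a, fixY σ a])
    (by
      simp only [F, map_add, map_mul, map_pow, aeval_X, map_ofNat, map_neg, map_sub,
        map_intCast, map_one]
      unfold qq dd at hY
      field_simp
      linear_combination 4 * hY)
  refine ⟨s, t, ?_⟩
  rw [hst]
  simp [F]
  ring

theorem nonempty_of {p : ℕ} (hp : p.Prime) (h : p % 20 = 3 ∨ p % 20 = 7) : (Pts p).Nonempty := by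
  by_cases h3 : p = 3
  · subst h3
    exact ⟨(0, 1), by norm_num [Pts]⟩
  obtain ⟨n, hn⟩ : ∃ n : ℤ, 4 * n - 1 = p := ⟨(p + 1) / 4, by omega⟩
  have hp' : Prime (4 * n - 1) := hn ▸ Nat.prime_iff_prime_int.1 hp
  obtain ⟨s, t, hst⟩ : ∃ s t : ℚ,
      t ^ 2 = (4 * n - 1) * ((2 * s ^ 2 + 2 * s + 3) * (1 + 4 * s - s ^ 2)) := by
    rcases h with h | h
    · exact cm_point (k := 1) (β := 3) (m := 1) (e := -(p + 2) / 5) (by omega) hp' rfl (by omega)
    · exact cm_point (k := 2) (β := -1) (m := -1) (e := -(4 * p + 2) / 5) (by omega) hp' rfl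
        (by omega)
  have hn' : (4 * n - 1 : ℚ) = p := by exact_mod_cast hn
  have h0 : (p : ℚ) ≠ 0 := by exact_mod_cast hp.ne_zero
  refine ⟨(s, t / p), ?_⟩
  rw [hn'] at hst
  simp only [Pts, Set.mem_ofPred_eq]
  field_simp
  linear_combination hst

end Pool.Agent.Lib.MP_d6ddbd_nt
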