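import Pool.Agent.Lib.MP_d6ddbd_nt.Tr

/-! The invariants of level five and of level two of a lattice with complex multiplication. -/

open Pointwise
open Pool.Agent.Lib.MP_9177b7_ag.CM

noncomputable section

namespace Pool.Agent.Lib.MP_d6ddbd_nt

variable {L M : Submodule ℤ ℂ} {ε z : ℂ} {e : ℤ} {σ : ℂ ≃+* ℂ}

/-- The value on the line through `(a + b ε) z`. -/
def gl (L : Submodule ℤ ℂ) (ε z : ℂ) (a b : ℤ) : ℂ := s5 L ((a + b * ε) * z)

/-- The invariant of level five. -/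
def tauL (L : Submodule ℤ ℂ) (ε z : ℂ) : ℂ :=
  T6 (g2 L) (g3 L) (gl L ε z 1 0) (gl L ε z 1 1) (gl L ε z 1 (-1)) (gl L ε z 0 1) (gl L ε z 2 1)
    (gl L ε z (-2) 1)

theorem lin_mem (hε : ε • L ≤ L) {x : ℂ} (hx : x ∈ L) (a b : ℤ) : (a + b * ε) * x ∈ L := by
  convert L.add_mem (imul hx a) (imul (mul_mem_of_le hε hx) b) using 1
  ring

theorem lin_le (hε : ε • L ≤ L) (a b : ℤ) : ((a : ℂ) + b * ε) • L ≤ L := fun x hx => by
  obtain ⟨y, hy, rfl⟩ := mem_smul_iff.1 hx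
  exact lin_mem hε hy a b

theorem lin_five (hε : ε • L ≤ L) (hz : 5 * z ∈ L) (a b : ℤ) : 5 * ((a + b * ε) * z) ∈ L := by
  convert lin_mem hε hz a b using 1
  ring

theorem lin_notMem (hε : ε • L ≤ L) (he : ε ^ 2 = 2 + 5 * e) (hz : 5 * z ∈ L) (hz' : z ∉ L)
    {a b : ℤ} (h : ¬ (5 : ℤ) ∣ a ^ 2 - 2 * b ^ 2) : (a + b * ε) * z ∉ L := fun hm => by
  obtain ⟨u, v, huv⟩ := (Int.prime_iff_natAbs_prime.2 (by norm_num) :
    Prime (5 : ℤ)).irreducible.coprime_iff_not_dvd.2 h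
  have huv' : (u : ℂ) * 5 + v * (a ^ 2 - 2 * b ^ 2) = 1 := by exact_mod_cast huv
  apply hz'
  convert L.add_mem (imul hz (u + v * b ^ 2 * e)) (imul (lin_mem hε hm a (-b)) v) using 1
  push_cast
  linear_combination (-z) * huv' + v * b ^ 2 * z * he

theorem gl_congr (hL : IsLat L) (hε : ε • L ≤ L) (he : ε ^ 2 = 2 + 5 * e) (hz : 5 * z ∈ L)
    (hz' : z ∉ L) (a b k : ℤ) {a' b' : ℤ} (h : ¬ (5 : ℤ) ∣ a' ^ 2 - 2 * b' ^ 2)
    (h1 : (5 : ℤ) ∣ a' - k * a) (h2 : (5 : ℤ) ∣ b' - k * b) : gl L ε z a' b' = gl L ε z a b := by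
  obtain ⟨u, hu⟩ := h1
  obtain ⟨v, hv⟩ := h2
  have hu' : (a' : ℂ) - k * a = 5 * u := by exact_mod_cast hu
  have hv' : (b' : ℂ) - k * b = 5 * v := by exact_mod_cast hv
  refine s5_congr hL (lin_five hε hz a b) k ?_ (lin_notMem hε he hz hz' h)
  convert lin_mem hε hz u v using 1
  linear_combination z * hu' + ε * z * hv'

theorem gl_mul (hL : IsLat L) (he : ε ^ 2 = 2 + 5 * e) (hz : 5 * z ∈ L) (a b x y : ℤ) :
    gl L ε ((x + y * ε) * z) a b = gl L ε z (a * x + 2 * b * y) (a * y + b * x) := by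
  have h : (a + b * ε) * ((x + y * ε) * z) -
      (((a * x + 2 * b * y : ℤ) : ℂ) + (a * y + b * x : ℤ) * ε) * z ∈ L := by
    convert imul hz (b * y * e) using 1
    push_cast
    linear_combination b * y * z * he
  unfold gl s5
  rw [wp_congr hL h, wp_congr hL (w := 2 * ((a + b * ε) * ((x + y * ε) * z)))
    (z := 2 * ((((a * x + 2 * b * y : ℤ) : ℂ) +
    (a * y + b * x : ℤ) * ε) * z)) (by convert imul h 2 using 1; push_cast; ring)]

theorem T6_rot' (a b x y z x' y' z' : ℂ) : T6 a b y z x y' z' x' = T6 a b x y z x' y' z' := by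
  unfold T6
  congr 1 <;> ring

theorem tau_eta (hL : IsLat L) (hε : ε • L ≤ L) (he : ε ^ 2 = 2 + 5 * e) (hz : 5 * z ∈ L)
    (hz' : z ∉ L) : tauL L ε ((((1 : ℤ) : ℂ) + (1 : ℤ) * ε) * z) = tauL L ε z := by
  have c := gl_congr hL hε he hz hz'
  unfold tauL
  simp only [gl_mul hL he hz]
  rw [c 1 1 1 (a' := 1 * 1 + 2 * 0 * 1) (by decide) (by decide) (by decide),
    c 1 (-1) 3 (a' := 1 * 1 + 2 * 1 * 1) (by decide) (by decide) (by decide),
    c 1 0 (-1) (a' := 1 * 1 + 2 * (-1) * 1) (by decide) (by decide) (by decide),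
    c 2 1 1 (a' := 0 * 1 + 2 * 1 * 1) (by decide) (by decide) (by decide),
    c (-2) 1 3 (a' := 2 * 1 + 2 * 1 * 1) (by decide) (by decide) (by decide),
    c 0 1 (-1) (a' := (-2) * 1 + 2 * 1 * 1) (by decide) (by decide) (by decide), T6_rot']

theorem tau_eps (hL : IsLat L) (hε : ε • L ≤ L) (he : ε ^ 2 = 2 + 5 * e) (hz : 5 * z ∈ L)
    (hz' : z ∉ L) : tauL L ε ((((0 : ℤ) : ℂ) + (1 : ℤ) * ε) * z) = tauL L ε z := by
  have c := gl_congr hL hε he hz hz'
  unfold tauL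
  simp only [gl_mul hL he hz]
  rw [c 0 1 1 (a' := 1 * 0 + 2 * 0 * 1) (by decide) (by decide) (by decide),
    c 2 1 1 (a' := 1 * 0 + 2 * 1 * 1) (by decide) (by decide) (by decide),
    c (-2) 1 1 (a' := 1 * 0 + 2 * (-1) * 1) (by decide) (by decide) (by decide),
    c 1 0 2 (a' := 0 * 0 + 2 * 1 * 1) (by decide) (by decide) (by decide),
    c 1 1 2 (a' := 2 * 0 + 2 * 1 * 1) (by decide) (by decide) (by decide),
    c 1 (-1) 2 (a' := (-2) * 0 + 2 * 1 * 1) (by decide) (by decide) (by decide), T6_swap]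

theorem tau_congr (hL : IsLat L) (hε : ε • L ≤ L) (he : ε ^ 2 = 2 + 5 * e) (hz : 5 * z ∈ L)
    {w : ℂ} (hw : w ∉ L) (k : ℤ) (hk : w - k * z ∈ L) : tauL L ε w = tauL L ε z := by
  have h5 : 5 * w ∈ L := by
    convert L.add_mem (imul hk 5) (imul hz k) using 1
    push_cast; ring
  have c : ∀ a b : ℤ, ¬ (5 : ℤ) ∣ a ^ 2 - 2 * b ^ 2 → gl L ε w a b = gl L ε z a b := fun a b h =>
    s5_congr hL (lin_five hε hz a b) k (by convert lin_mem hε hk a b using 1; ring)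
      (lin_notMem hε he h5 hw h)
  unfold tauL
  rw [c 1 0 (by decide), c 1 1 (by decide), c 1 (-1) (by decide), c 0 1 (by decide),
    c 2 1 (by decide), c (-2) 1 (by decide)]

theorem tau_mul (hL : IsLat L) (hε : ε • L ≤ L) (he : ε ^ 2 = 2 + 5 * e) (hz : 5 * z ∈ L)
    (hz' : z ∉ L) (x y : ℤ) (hw : (x + y * ε) * z ∉ L) :
    tauL L ε ((x + y * ε) * z) = tauL L ε z := by
  have step : ∀ {w : ℂ}, 5 * w ∈ L ∧ w ∉ L ∧ tauL L ε w = tauL L ε z →
      (5 * ((((1 : ℤ) : ℂ) + (1 : ℤ) * ε) * w) ∈ L ∧ (((1 : ℤ) : ℂ) + (1 : ℤ) * ε) * w ∉ L ∧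
        tauL L ε ((((1 : ℤ) : ℂ) + (1 : ℤ) * ε) * w) = tauL L ε z) ∧
      (5 * ((((0 : ℤ) : ℂ) + (1 : ℤ) * ε) * w) ∈ L ∧ (((0 : ℤ) : ℂ) + (1 : ℤ) * ε) * w ∉ L ∧
        tauL L ε ((((0 : ℤ) : ℂ) + (1 : ℤ) * ε) * w) = tauL L ε z) := fun ⟨a, b, c⟩ =>
    ⟨⟨lin_five hε a _ _, lin_notMem hε he a b (by decide), (tau_eta hL hε he a b).trans c⟩,
      ⟨lin_five hε a _ _, lin_notMem hε he a b (by decide), (tau_eps hL hε he a b).trans c⟩⟩
  have s0 : 5 * z ∈ L ∧ z ∉ L ∧ tauL L ε z = tauL L ε z := ⟨hz, hz', rfl⟩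
  have s1 := (step s0).1
  have s2 := (step s1).1
  have key : ∀ x y : ZMod 5, ∃ k : ZMod 5, (k * 1 = x ∧ k * 0 = y) ∨ (k * 1 = x ∧ k * 1 = y) ∨
      (k * 3 = x ∧ k * 2 = y) ∨ (k * 0 = x ∧ k * 1 = y) ∨ (k * 2 = x ∧ k * 1 = y) ∨
      (k * 4 = x ∧ k * 3 = y) := by decide
  obtain ⟨k, hk⟩ := key x y
  obtain ⟨k, rfl⟩ := ZMod.intCast_surjective k
  have fin : ∀ (a b : ℤ) (w : ℂ), (k : ZMod 5) * (a : ℤ) = x ∧ (k : ZMod 5) * (b : ℤ) = y →
      5 * w ∈ L ∧ w ∉ L ∧ tauL L ε w = tauL L ε z → (a + b * ε) * z - w ∈ L →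
      tauL L ε ((x + y * ε) * z) = tauL L ε z := by
    intro a b w ⟨h1, h2⟩ ⟨w1, _, w3⟩ h
    obtain ⟨u, hu⟩ := (ZMod.intCast_eq_intCast_iff_dvd_sub (k * a) x 5).1 (by push_cast; exact h1)
    obtain ⟨v, hv⟩ := (ZMod.intCast_eq_intCast_iff_dvd_sub (k * b) y 5).1 (by push_cast; exact h2)
    have hu' : (x : ℂ) - k * a = 5 * u := by exact_mod_cast hu
    have hv' : (y : ℂ) - k * b = 5 * v := by exact_mod_cast hv
    rw [← w3]
    refine tau_congr hL hε he w1 hw k ?_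
    convert L.add_mem (lin_mem hε hz u v) (imul h k) using 1
    linear_combination z * hu' + ε * z * hv'
  rcases hk with h | h | h | h | h | h
  · exact fin 1 0 _ (by exact_mod_cast h) s0 (by simp)
  · exact fin 1 1 _ (by exact_mod_cast h) s1 (by simp)
  · refine fin 3 2 _ (by exact_mod_cast h) s2 ?_
    convert imul hz (-e) using 1
    push_cast
    linear_combination (-z) * he
  · exact fin 0 1 _ (by exact_mod_cast h) (step s0).2 (by simp)
  · refine fin 2 1 _ (by exact_mod_cast h) (step s1).2 ?_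
    convert imul hz (-e) using 1
    push_cast
    linear_combination (-z) * he
  · refine fin 4 3 _ (by exact_mod_cast h) (step s2).2 ?_
    convert lin_mem hε hz (-2 * e) (-e) using 1
    push_cast
    linear_combination (-z) * (ε + 2) * he

theorem tau_neg_eps (hL : IsLat L) : tauL L (-ε) z = tauL L ε z := by
  have c : ∀ a b : ℤ, gl L (-ε) z a b = gl L ε z a (-b) := fun a b => by
    unfold gl; congr 2; push_cast; ring
  have d : ∀ a b : ℤ, gl L ε z a (-b) = gl L ε z (-a) b := fun a b => by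
    unfold gl s5
    rw [← wp_neg hL, ← wp_neg hL (2 * _)]
    congr 2 <;> push_cast <;> ring
  unfold tauL
  rw [c, c, c, c, c, c, d 0 1, d 2 1, d (-2) 1, neg_zero, neg_neg, neg_neg, T6_flip]

theorem tau_smul (L : Submodule ℤ ℂ) {c : ℂ} (hc : c ≠ 0) (ε z : ℂ) :
    tauL (c • L) ε (c * z) = tauL L ε z := by
  have h : ∀ a b : ℤ, gl (c • L) ε (c * z) a b = (c ^ 2)⁻¹ * gl L ε z a b := fun a b => by
    unfold gl s5
    rw [mul_add, ← wp_smul L hc, ← wp_smul L hc]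
    congr 2 <;> ring
  unfold tauL
  simp only [h, hyp.g2_smul L hc, hyp.g3_smul L hc]
  rw [← T6_scale (inv_ne_zero (pow_ne_zero 2 hc)) (g2 L)]
  congr 2 <;> ring

theorem tau_conj (h1 : Conj (σ : ℂ →+* ℂ) L M) (hε : ε • L ≤ L) (he : ε ^ 2 = 2 + 5 * e)
    (hz : 5 * z ∈ L) (hz' : z ∉ L) {w : ℂ} (hw : 5 * w ∈ M)
    (h2 : Conj (σ : ℂ →+* ℂ) (ext L z) (ext M w)) : σ (tauL L ε z) = tauL M (σ ε) w := by
  have c : ∀ a b : ℤ, ¬ (5 : ℤ) ∣ a ^ 2 - 2 * b ^ 2 → σ (gl L ε z a b) = gl M (σ ε) w a b := by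
    intro a b h
    have n := lin_notMem hε he hz hz' h
    have h0 : (a : ℂ) + b * ε ≠ 0 := fun h0 => n (by simp [h0])
    have h3 := conj_ext_mul h1 h2 (N := 5) (by norm_num) (by exact_mod_cast hz) h0 (lin_le hε a b)
    have h4 := mul_mem_of_le (hyp.conj_mono (hyp.conj_smul h1 h0) h1 (lin_le hε a b)) hw
    have h5 := val_five h1 h3 (lin_five hε hz a b) (by convert h4 using 1; simp; ring) n
    simpa [gl] using h5
  have := T6_map (σ : ℂ →+* ℂ) (g2 L) (g3 L) (gl L ε z 1 0) (gl L ε z 1 1) (gl L ε z 1 (-1))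
    (gl L ε z 0 1) (gl L ε z 2 1) (gl L ε z (-2) 1)
  rw [h1.2.2.1, h1.2.2.2] at this
  simp only [RingHom.coe_coe] at this
  rw [c 1 0 (by decide), c 1 1 (by decide), c 1 (-1) (by decide), c 0 1 (by decide),
    c 2 1 (by decide), c (-2) 1 (by decide)] at this
  exact this

theorem tau_pol (hL : IsLat L) (hε : ε • L ≤ L) (he : ε ^ 2 = 2 + 5 * e) (hz : 5 * z ∈ L)
    (hz' : z ∉ L) (ha : g2 L ≠ 0) (hb : g3 L ≠ 0) : Pol (g2 L) (g3 L) (tauL L ε z) = 0 := by
  let ra : Fin 6 → ℤ := ![1, 1, 1, 0, 2, -2]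
  let rb : Fin 6 → ℤ := ![0, 1, -1, 1, 1, 1]
  have n : ∀ i, ¬ (5 : ℤ) ∣ ra i ^ 2 - 2 * rb i ^ 2 := by decide
  have key : ∀ (i j : Fin 6) (k : ZMod 5),
      ((ra j : ZMod 5) - k * ra i) ^ 2 - 2 * ((rb j : ZMod 5) - k * rb i) ^ 2 = 0 → i = j := by
    decide
  refine pol_T6 ha hb (hyp.dis_ne_zero hL) (s := fun i => gl L ε z (ra i) (rb i))
    (fun i j h => ?_) fun i =>
      (s5_root hL (lin_five hε hz _ _) (lin_notMem hε he hz hz' (n i)) hb).1
  obtain ⟨k, hk⟩ := s5_inj hL (lin_five hε hz _ _) (lin_notMem hε he hz hz' (n i))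
    (lin_five hε hz _ _) (lin_notMem hε he hz hz' (n j)) hb h
  refine key i j k ?_
  by_contra hne
  refine lin_notMem hε he hz hz' (a := ra j - k * ra i) (b := rb j - k * rb i) (fun hd => hne ?_) ?_
  · exact_mod_cast (ZMod.intCast_zmod_eq_zero_iff_dvd _ 5).2 hd
  · convert hk using 1
    push_cast; ring

/-- The invariant of level two. -/
def gam (L : Submodule ℤ ℂ) (ω y : ℂ) : ℂ :=
  (2 * ω - 1) * g3 L / ((wp L ((1 - ω) * y) - wp L y) * (wp L y - wp L (ω * y)) *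
    (wp L (ω * y) - wp L ((1 - ω) * y)))

variable {ω y : ℂ} {n : ℤ}

theorem gam_bar (L : Submodule ℤ ℂ) (ω y : ℂ) : gam L (1 - ω) y = gam L ω y := by
  unfold gam
  rw [← neg_div_neg_eq, sub_sub_cancel]
  congr 1 <;> ring

theorem gam_smul (L : Submodule ℤ ℂ) {c : ℂ} (hc : c ≠ 0) (ω y : ℂ) :
    gam (c • L) ω (c * y) = gam L ω y := by
  unfold gam
  rw [mul_left_comm (1 - ω), mul_left_comm ω c, wp_smul L hc, wp_smul L hc, wp_smul L hc,
    hyp.g3_smul L hc, ← mul_div_mul_left _ _ (pow_ne_zero 6 hc)]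
  congr 1 <;> field_simp

theorem one_sub_le (hω : ω • L ≤ L) : (1 - ω) • L ≤ L := by
  simpa [sub_eq_add_neg] using lin_le hω 1 (-1)

theorem gam_conj (h1 : Conj (σ : ℂ →+* ℂ) L M) (hω : ω • L ≤ L) (hy : 2 * y ∈ L)
    (h3 : ω * y ∉ L) (h4 : (1 - ω) * y ∉ L) {w : ℂ}
    (h2 : Conj (σ : ℂ →+* ℂ) (ext L y) (ext M w)) :
    σ (gam L ω y) = gam M (σ ω) w ∧ σ ω * w ∉ M ∧ (1 - σ ω) * w ∉ M := by
  have c : ∀ α : ℂ, α • L ≤ L → α * y ∉ L → σ (wp L (α * y)) = wp M (σ α * w) ∧ σ α * w ∉ M := by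
    intro α hα n
    have h0 : α ≠ 0 := fun h0 => n (by simp [h0])
    have h5 := conj_ext_mul h1 h2 (N := 2) (by norm_num) (by exact_mod_cast hy) h0 hα
    exact ⟨val_two h1 h5 (by convert mul_mem_of_le hα hy using 1; ring) n, notMem_of_conj h1 h5 n⟩
  have a := c ω hω h3
  have b := c _ (one_sub_le hω) h4
  have d := val_two h1 h2 hy fun h => h3 (mul_mem_of_le hω h)
  rw [map_sub, map_one] at b
  refine ⟨?_, a.2, b.2⟩
  have g : σ (g3 L) = g3 M := h1.2.2.2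
  simp only [gam, map_div₀, map_mul, map_sub, map_ofNat, map_one, a.1, b.1, d, g]

theorem gam_congr (hL : IsLat L) (hω : ω • L ≤ L) {w : ℂ} (h : w - y ∈ L) :
    gam L ω w = gam L ω y := by
  unfold gam
  rw [wp_congr hL h, wp_congr hL (w := ω * w) (z := ω * y)
      (by convert mul_mem_of_le hω h using 1; ring),
    wp_congr hL (w := (1 - ω) * w) (z := (1 - ω) * y)
      (by convert mul_mem_of_le (one_sub_le hω) h using 1; ring)]

theorem gam_indep (hL : IsLat L) (hω : ω • L ≤ L) (hn : ω ^ 2 = ω - n) (hy : 2 * y ∈ L) (a b : ℤ)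
    (h3 : ω * ((a + b * ω) * y) ∉ L) (h4 : (1 - ω) * ((a + b * ω) * y) ∉ L) :
    gam L ω ((a + b * ω) * y) = gam L ω y := by
  have red : ∀ a' b' u v : ℤ, a = 2 * u + a' → b = 2 * v + b' →
      (a + b * ω) * y - (a' + b' * ω) * y ∈ L := by
    rintro a' b' u v rfl rfl
    convert lin_mem hω hy u v using 1
    push_cast; ring
  have hω2 := mul_mem_of_le hω hy
  obtain ⟨m, hm⟩ := Int.even_or_odd' n
  have hm' : (n : ℂ) = 2 * m ∨ (n : ℂ) = 2 * m + 1 := by exact_mod_cast hm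
  obtain ⟨u, hu | hu⟩ := Int.even_or_odd' a <;> obtain ⟨v, hv | hv⟩ := Int.even_or_odd' b
  · exact absurd (mul_mem_of_le hω (by simpa using red 0 0 u v (by simpa using hu) (by simpa using hv))) h3
  · have r := red 0 1 u v (by simpa using hu) hv
    rcases hm' with hm' | hm'
    · refine absurd ?_ h4
      convert L.add_mem (mul_mem_of_le (one_sub_le hω) r) (imul hy m) using 1
      push_cast
      linear_combination (-y) * hn + y * hm'
    · rw [gam_congr hL hω (y := ω * y) (by simpa using r)]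
      unfold gam
      rw [wp_congr hL (w := (1 - ω) * (ω * y)) (z := y) (by
          convert imul hy m using 1; linear_combination (-y) * hn + y * hm'),
        wp_congr' hL (w := ω * (ω * y)) (z := (1 - ω) * y) (by
          convert imul hy (-m) using 1; push_cast; linear_combination y * hn - y * hm')]
      congr 1; ring
  · exact gam_congr hL hω (by simpa using red 1 0 u v hu (by simpa using hv))
  · have r := red 1 1 u v hu hv
    have r' : (a + b * ω) * y - (1 - ω) * y ∈ L := by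
      convert L.add_mem r hω2 using 1
      push_cast; ring
    rcases hm' with hm' | hm'
    · refine absurd ?_ h3
      convert L.add_mem (mul_mem_of_le hω r') (imul hy m) using 1
      linear_combination (-y) * hn + y * hm'
    · rw [gam_congr hL hω r']
      unfold gam
      rw [wp_congr hL (w := ω * ((1 - ω) * y)) (z := y) (by
          convert imul hy m using 1; linear_combination (-y) * hn + y * hm'),
        wp_congr' hL (w := (1 - ω) * ((1 - ω) * y)) (z := ω * y) (by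
          convert imul hy (-m) using 1; push_cast; linear_combination y * hn - y * hm')]
      congr 1; ring

theorem gam_sq (hL : IsLat L) (hω : ω • L ≤ L) (hy : 2 * y ∈ L) (h3 : ω * y ∉ L)
    (h4 : (1 - ω) * y ∉ L) : gam L ω y ^ 2 * dis L = 16 * (2 * ω - 1) ^ 2 * g3 L ^ 2 := by
  have h5 : y ∉ L := fun h => h3 (mul_mem_of_le hω h)
  have hω2 := mul_mem_of_le hω hy
  have r1 := wp_half hL h4 (by convert mul_mem_of_le (one_sub_le hω) hy using 1; ring)
  have r2 := wp_half hL h5 hy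
  have r3 := wp_half hL h3 (by convert hω2 using 1; ring)
  have n12 : wp L ((1 - ω) * y) ≠ wp L y := fun h => (wp_inj hL h4 h5 h).elim
    (fun h => h3 (by convert L.neg_mem h using 1; ring))
    fun h => h3 (by convert L.sub_mem hy h using 1; ring)
  have n13 : wp L ((1 - ω) * y) ≠ wp L (ω * y) := fun h => (wp_inj hL h4 h3 h).elim
    (fun h => h5 (by convert L.add_mem h hω2 using 1; ring))
    fun h => h5 (by convert h using 1; ring)
  have n23 : wp L y ≠ wp L (ω * y) := fun h => (wp_inj hL h5 h3 h).elim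
    (fun h => h4 (by convert h using 1; ring))
    fun h => h4 (by convert L.sub_mem h hω2 using 1; ring)
  unfold gam dis
  generalize wp L ((1 - ω) * y) = e1 at *
  generalize wp L y = e2 at *
  generalize wp L (ω * y) = e3 at *
  obtain ⟨v1, v2, v3⟩ := vieta (α := 0) (β := -g2 L / 4) (γ := g3 L / 4) n12 n13 n23
    (by linear_combination r1 / 4) (by linear_combination r2 / 4) (by linear_combination r3 / 4)
  have e : g2 L ^ 3 - 27 * g3 L ^ 2 = 16 * ((e1 - e2) * (e2 - e3) * (e3 - e1)) ^ 2 := by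
    rw [show g2 L = -4 * (e1 * e2 + e2 * e3 + e3 * e1) by linear_combination -4 * v2,
      show g3 L = 4 * (e1 * e2 * e3) by linear_combination 4 * v3,
      show e3 = -e1 - e2 by linear_combination -v1]
    ring
  have := sub_ne_zero.2 n12
  have := sub_ne_zero.2 n23
  have := sub_ne_zero.2 n13.symm
  rw [e]
  field_simp

end Pool.Agent.Lib.MP_d6ddbd_nt
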